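import Pool.Agent.L7h48.SG.Stm

/-!
Project SG (helper48): elementary facts on `HP p U`.
-/

set_option autoImplicit false

namespace Pool.Agent.L7h23.SG

open Pool.Agent.L7h48.SG

variable {p : ℕ} [Fact p.Prime] {G : Type} [Group G] [TopologicalSpace G]

section basic

variable {U : Subgroup G} {φ : G → ZMod p}

lemma hp_mul (h : φ ∈ HP p U) {x y : G} (hx : x ∈ U) (hy : y ∈ U) : φ (x * y) = φ x + φ y := h.2.1 x hx y hy

lemma hp_lc (h : φ ∈ HP p U) : IsLocallyConstant φ := h.1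

lemma hp_out (h : φ ∈ HP p U) {x : G} (hx : x ∉ U) : φ x = 0 := h.2.2 x hx

lemma hp_one (h : φ ∈ HP p U) : φ 1 = 0 := by
  have := hp_mul h U.one_mem U.one_mem
  rw [one_mul] at this
  exact left_eq_add.1 this

lemma hp_inv (h : φ ∈ HP p U) {x : G} (hx : x ∈ U) : φ x⁻¹ = -φ x := by
  have := hp_mul h (U.inv_mem hx) hx
  rw [inv_mul_cancel, hp_one h] at this
  exact eq_neg_of_add_eq_zero_left this.symm

lemma hp_conj (h : φ ∈ HP p U) {x y : G} (hx : x ∈ U) (hy : y ∈ U) : φ (y * x * y⁻¹) = φ x := by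
  rw [hp_mul h (U.mul_mem hy hx) (U.inv_mem hy), hp_mul h hy hx, hp_inv h hy]
  ring

lemma hp_conj' (h : φ ∈ HP p U) {x y : G} (hx : x ∈ U) (hy : y ∈ U) : φ (y⁻¹ * x * y) = φ x := by
  have := hp_conj h hx (U.inv_mem hy)
  rwa [inv_inv] at this

lemma hp_pow (h : φ ∈ HP p U) {x : G} (hx : x ∈ U) (n : ℕ) : φ (x ^ n) = n * φ x := by
  induction n with
  | zero => rw [pow_zero, hp_one h, Nat.cast_zero, zero_mul]
  | succ n ih => rw [pow_succ, hp_mul h (U.pow_mem hx n) hx, ih]; push_cast; ring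

lemma hp_pow_p (h : φ ∈ HP p U) {x : G} (hx : x ∈ U) : φ (x ^ p) = 0 := by
  rw [hp_pow h hx, CharP.cast_eq_zero, zero_mul]

end basic

section ker

variable {U Q : Subgroup G} {χ : G → ZMod p}

lemma ker_le (hQ : IsKer p U Q χ) : Q ≤ U := fun x hx => ((hQ x).1 hx).1

lemma ker_zero (hQ : IsKer p U Q χ) {x : G} (hx : x ∈ Q) : χ x = 0 := ((hQ x).1 hx).2

lemma ker_mem (hQ : IsKer p U Q χ) {x : G} (hx : x ∈ U) (h : χ x = 0) : x ∈ Q := (hQ x).2 ⟨hx, h⟩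

lemma ker_conj (hχ : χ ∈ HP p U) (hQ : IsKer p U Q χ) {x y : G} (hx : x ∈ Q) (hy : y ∈ U) :
    y * x * y⁻¹ ∈ Q := by
  have hxU := ker_le hQ hx
  exact ker_mem hQ (U.mul_mem (U.mul_mem hy hxU) (U.inv_mem hy)) (by rw [hp_conj hχ hxU hy, ker_zero hQ hx])

lemma ker_conj' (hχ : χ ∈ HP p U) (hQ : IsKer p U Q χ) {x y : G} (hx : x ∈ Q) (hy : y ∈ U) :
    y⁻¹ * x * y ∈ Q := by
  have := ker_conj hχ hQ hx (U.inv_mem hy)
  rwa [inv_inv] at this

lemma ker_conj_iff (hχ : χ ∈ HP p U) (hQ : IsKer p U Q χ) {x y : G} (hy : y ∈ U) :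
    y * x * y⁻¹ ∈ Q ↔ x ∈ Q := by
  constructor
  · intro h
    have h1 := ker_conj' hχ hQ h hy
    have e : y⁻¹ * (y * x * y⁻¹) * y = x := by group
    rwa [e] at h1
  · intro h
    exact ker_conj hχ hQ h hy

lemma ker_pow (hχ : χ ∈ HP p U) (hQ : IsKer p U Q χ) {σ : G} (hσ : σ ∈ U) : σ ^ p ∈ Q :=
  ker_mem hQ (U.pow_mem hσ p) (hp_pow_p hχ hσ)

lemma ker_isOpen (hU : IsOpen (U : Set G)) (hχ : χ ∈ HP p U) (hQ : IsKer p U Q χ) : IsOpen (Q : Set G) := by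
  have e : (Q : Set G) = (U : Set G) ∩ χ ⁻¹' {0} := by
    ext x
    exact hQ x
  rw [e]
  exact hU.inter ((hp_lc hχ).isOpen_fiber 0)

end ker

section top

variable [IsTopologicalGroup G]

open Classical in
/-- restriction to an open subgroup, extended by zero -/
lemma lc_ite {Y : Type} [Zero Y] {U : Subgroup G} (hU : IsOpen (U : Set G)) {f : G → Y} (hf : IsLocallyConstant f) :
    IsLocallyConstant (fun x => if x ∈ U then f x else 0) := by
  have hc : IsClosed (U : Set G) := U.isClosed_of_isOpen hU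
  rw [IsLocallyConstant.iff_exists_open]
  intro x
  by_cases hx : x ∈ U
  · obtain ⟨V, hV, hxV, hVf⟩ := (IsLocallyConstant.iff_exists_open f).1 hf x
    refine ⟨V ∩ U, hV.inter hU, ⟨hxV, hx⟩, fun y hy => ?_⟩
    have hy2 : y ∈ U := hy.2
    rw [if_pos hy2, if_pos hx]
    exact hVf y hy.1
  · refine ⟨(U : Set G)ᶜ, hc.isOpen_compl, hx, fun y hy => ?_⟩
    have hy2 : ¬ (y ∈ U) := fun h => hy h
    simp only [if_neg hy2, if_neg hx]

open Classical in
/-- the restriction of a homomorphism to a smaller open subgroup -/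
lemma hp_res {U V : Subgroup G} (hV : IsOpen (V : Set G)) (hVU : V ≤ U) {b : G → ZMod p} (hb : b ∈ HP p U) :
    (fun x => if x ∈ V then b x else 0) ∈ HP p V := by
  refine ⟨lc_ite hV (hp_lc hb), fun x hx y hy => ?_, fun x hx => if_neg hx⟩
  simp only [if_pos (V.mul_mem hx hy), if_pos hx, if_pos hy]
  exact hp_mul hb (hVU hx) (hVU hy)

/-- conjugation -/
lemma hp_cj {U Q : Subgroup G} {χ : G → ZMod p} (hχ : χ ∈ HP p U) (hQ : IsKer p U Q χ) {σ : G} (hσ : σ ∈ U)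
    {φ : G → ZMod p} (hφ : φ ∈ HP p Q) : (fun x => φ (σ * x * σ⁻¹)) ∈ HP p Q := by
  refine ⟨(hp_lc hφ).comp_continuous (by fun_prop), fun x hx y hy => ?_, fun x hx => ?_⟩
  · have e : σ * (x * y) * σ⁻¹ = (σ * x * σ⁻¹) * (σ * y * σ⁻¹) := by group
    simp only
    rw [e, hp_mul hφ (ker_conj hχ hQ hx hσ) (ker_conj hχ hQ hy hσ)]
  · exact hp_out hφ (fun h => hx ((ker_conj_iff hχ hQ hσ).1 h))

/-- the operator `S` of conjugation -/
def Sop {U Q : Subgroup G} {χ : G → ZMod p} (hχ : χ ∈ HP p U) (hQ : IsKer p U Q χ) {σ : G} (hσ : σ ∈ U) :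
    HP p Q →ₗ[ZMod p] HP p Q where
  toFun φ := ⟨fun x => φ.1 (σ * x * σ⁻¹), hp_cj hχ hQ hσ φ.2⟩
  map_add' _ _ := rfl
  map_smul' _ _ := rfl

lemma Sop_apply {U Q : Subgroup G} {χ : G → ZMod p} (hχ : χ ∈ HP p U) (hQ : IsKer p U Q χ) {σ : G} (hσ : σ ∈ U)
    (φ : HP p Q) (x : G) : (Sop hχ hQ hσ φ).1 x = φ.1 (σ * x * σ⁻¹) := rfl

lemma Sop_pow {U Q : Subgroup G} {χ : G → ZMod p} (hχ : χ ∈ HP p U) (hQ : IsKer p U Q χ) {σ : G} (hσ : σ ∈ U)
    (i : ℕ) (φ : HP p Q) (x : G) : ((Sop hχ hQ hσ ^ i) φ).1 x = φ.1 (σ ^ i * x * (σ ^ i)⁻¹) := by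
  induction i generalizing x with
  | zero => rw [pow_zero, pow_zero, inv_one, one_mul, mul_one]; rfl
  | succ i ih =>
    rw [pow_succ', Module.End.mul_apply, Sop_apply, ih]
    congr 1
    rw [pow_succ]
    group

lemma Sop_pow_p {U Q : Subgroup G} {χ : G → ZMod p} (hχ : χ ∈ HP p U) (hQ : IsKer p U Q χ) {σ : G} (hσ : σ ∈ U) :
    Sop hχ hQ hσ ^ p = 1 := by
  ext φ x
  rw [Sop_pow]
  by_cases hx : x ∈ Q
  · exact hp_conj φ.2 hx (ker_pow hχ hQ hσ)
  · rw [Module.End.one_apply, hp_out φ.2 hx, hp_out φ.2]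
    intro h
    exact hx ((ker_conj_iff hχ hQ (U.pow_mem hσ p)).1 h)

end top

/-! ### the polynomial identities -/

lemma end_sub_pow {Y : Type*} [AddCommGroup Y] [Module (ZMod p) Y] (S : Y →ₗ[ZMod p] Y) (hS : S ^ p = 1) :
    (S - 1) ^ p = 0 := by
  have h1 : (Polynomial.X - 1 : Polynomial (ZMod p)) ^ p = Polynomial.X ^ p - 1 := by
    rw [sub_pow_char, one_pow]
  have h2 := congrArg (Polynomial.aeval S) h1
  simp only [map_pow, map_sub, Polynomial.aeval_X, map_one] at h2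
  rw [h2, hS, sub_self]

lemma end_geom {Y : Type*} [AddCommGroup Y] [Module (ZMod p) Y] (S : Y →ₗ[ZMod p] Y) :
    (S - 1) ^ (p - 1) = ∑ i ∈ Finset.range p, S ^ i := by
  have hp1 : 1 ≤ p := (Fact.out : p.Prime).one_lt.le
  have h0 : (Polynomial.X - 1 : Polynomial (ZMod p)) ≠ 0 := by
    have : (Polynomial.X - Polynomial.C 1 : Polynomial (ZMod p)) ≠ 0 := Polynomial.X_sub_C_ne_zero 1
    rwa [map_one] at this
  have h1 : (Polynomial.X - 1 : Polynomial (ZMod p)) ^ (p - 1) = ∑ i ∈ Finset.range p, Polynomial.X ^ i := by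
    apply mul_right_cancel₀ h0
    rw [geom_sum_mul, ← pow_succ, Nat.sub_add_cancel hp1, sub_pow_char, one_pow]
  have h2 := congrArg (Polynomial.aeval S) h1
  simpa only [map_pow, map_sub, Polynomial.aeval_X, map_one, map_sum] using h2

end Pool.Agent.L7h23.SG
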