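import Mathlib

/-!
Project SG (helper48), part CNT: the linear algebra.
-/

set_option autoImplicit false

namespace Pool.Agent.L7h23.SG

open Module

section

variable {F X : Type*} [Field F] [AddCommGroup X] [Module F X] [FiniteDimensional F X]

/-- rank and nullity for `D` on a submodule -/
lemma rank_null (D : X →ₗ[F] X) (R : Submodule F X) :
    finrank F R = finrank F (R.map D) + finrank F (LinearMap.ker D ⊓ R : Submodule F X) := by
  have h := LinearMap.finrank_range_add_finrank_ker (D.domRestrict R)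
  rw [LinearMap.range_domRestrict] at h
  rw [← h]
  congr 1
  have e1 : (LinearMap.ker (D.domRestrict R)) = Submodule.comap R.subtype (LinearMap.ker D) := by
    ext x
    simp
  rw [e1]
  have e2 := Submodule.finrank_map_subtype_eq R (Submodule.comap R.subtype (LinearMap.ker D))
  rw [← e2, Submodule.map_comap_subtype, inf_comm]

lemma map_range_pow (D : X →ₗ[F] X) (k : ℕ) :
    (LinearMap.range (D ^ k)).map D = LinearMap.range (D ^ (k + 1)) := by
  rw [pow_succ', Module.End.mul_eq_comp, LinearMap.range_comp]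

lemma range_pow_anti (D : X →ₗ[F] X) {k l : ℕ} (h : k ≤ l) :
    LinearMap.range (D ^ l) ≤ LinearMap.range (D ^ k) := by
  obtain ⟨m, rfl⟩ := Nat.exists_eq_add_of_le h
  rw [pow_add, Module.End.mul_eq_comp]
  exact LinearMap.range_comp_le_range _ _

lemma sum_dims (D : X →ₗ[F] X) (n : ℕ) :
    finrank F X = finrank F (LinearMap.range (D ^ n)) +
      ∑ k ∈ Finset.range n, finrank F (LinearMap.ker D ⊓ LinearMap.range (D ^ k) : Submodule F X) := by
  induction n with
  | zero =>
    rw [pow_zero, Finset.sum_range_zero, add_zero, Module.End.one_eq_id, LinearMap.range_id, finrank_top]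
  | succ n ih =>
    rw [Finset.sum_range_succ, ih, rank_null D (LinearMap.range (D ^ n)), map_range_pow]
    ring

theorem la_main (p c : ℕ) (hp : 3 ≤ p) (D : X →ₗ[F] X) (hD : D ^ p = 0) (ev : X →ₗ[F] F)
    (hev : ∀ x, ev (D x) = 0) (M : Submodule F X)
    (h1 : ∀ w, D w = 0 → ev w = 0 → (w ∈ M ↔ ∃ ψ, D ψ = w ∧ ev ψ = 0))
    (h2 : M ≤ LinearMap.range (D ^ (p - 1))) (h3 : M ≤ LinearMap.ker D ⊓ LinearMap.ker ev)
    (hW : finrank F (LinearMap.ker D ⊓ LinearMap.ker ev : Submodule F X) = c + 1)
    (hX : finrank F X = p * c + 2) : finrank F M = c := by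
  set W : Submodule F X := LinearMap.ker D ⊓ LinearMap.ker ev with hWd
  have hMW : M ≤ LinearMap.ker D := h3.trans inf_le_left
  obtain ⟨m, hm⟩ : ∃ m, m = finrank F M := ⟨_, rfl⟩
  have hlow : ∀ k, k ≤ p - 1 → m ≤ finrank F (LinearMap.ker D ⊓ LinearMap.range (D ^ k) : Submodule F X) := by
    intro k hk
    rw [hm]
    exact Submodule.finrank_mono (le_inf hMW (h2.trans (range_pow_anti D hk)))
  have hup0 : ∀ k, 1 ≤ k → (LinearMap.ker D ⊓ LinearMap.range (D ^ k) : Submodule F X) ≤
      W ⊓ LinearMap.range D := by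
    intro k hk x hx
    obtain ⟨hx1, hx2⟩ := hx
    have hx3 : x ∈ LinearMap.range D := by
      have := range_pow_anti D hk hx2
      rwa [pow_one] at this
    refine ⟨⟨hx1, ?_⟩, hx3⟩
    obtain ⟨y, hy⟩ := hx3
    rw [SetLike.mem_coe, LinearMap.mem_ker, ← hy]
    exact hev y
  have htop : (LinearMap.ker D ⊓ LinearMap.range (D ^ (p - 1)) : Submodule F X) ≤ M := by
    rintro x ⟨hx1, hx2⟩
    obtain ⟨y, hy⟩ := hx2
    have e1 : D ((D ^ (p - 2)) y) = x := by
      rw [← hy, ← Module.End.mul_apply, ← pow_succ']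
      congr 2
      omega
    have e2 : ev x = 0 := by
      rw [← e1]
      exact hev _
    have e3 : ev ((D ^ (p - 2)) y) = 0 := by
      have e4 : (D ^ (p - 2)) y = D ((D ^ (p - 3)) y) := by
        rw [← Module.End.mul_apply, ← pow_succ']
        congr 2
        omega
      rw [e4]
      exact hev _
    exact (h1 x hx1 e2).2 ⟨_, e1, e3⟩
  have hlast : finrank F (LinearMap.ker D ⊓ LinearMap.range (D ^ (p - 1)) : Submodule F X) = m :=
    le_antisymm (by rw [hm]; exact Submodule.finrank_mono htop) (hlow _ le_rfl)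
  -- the sum
  have hsum := sum_dims D p
  rw [hD, LinearMap.range_zero, finrank_bot, zero_add, hX] at hsum
  have hsplit : ∑ k ∈ Finset.range p, finrank F (LinearMap.ker D ⊓ LinearMap.range (D ^ k) : Submodule F X) =
      finrank F (LinearMap.ker D) + (∑ k ∈ Finset.Ico 1 (p - 1),
        finrank F (LinearMap.ker D ⊓ LinearMap.range (D ^ k) : Submodule F X) + m) := by
    have e1 : p = (p - 1) + 1 := by omega
    rw [e1, Finset.sum_range_succ, Nat.add_sub_cancel, hlast, Finset.range_eq_Ico,
      Finset.sum_eq_sum_Ico_succ_bot (by omega : 0 < p - 1), pow_zero, Module.End.one_eq_id, LinearMap.range_id,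
      inf_top_eq]
    ring
  rw [hsplit] at hsum
  set s := ∑ k ∈ Finset.Ico 1 (p - 1), finrank F (LinearMap.ker D ⊓ LinearMap.range (D ^ k) : Submodule F X)
    with hs
  have hslow : (p - 2) * m ≤ s := by
    have : ∑ k ∈ Finset.Ico 1 (p - 1), m ≤ s := Finset.sum_le_sum fun k hk => by
      rw [Finset.mem_Ico] at hk
      exact hlow k (by omega)
    rw [Finset.sum_const, Nat.card_Ico, smul_eq_mul] at this
    have e : p - 1 - 1 = p - 2 := by omega
    rwa [e] at this
  have hsup : ∀ b, finrank F (W ⊓ LinearMap.range D : Submodule F X) ≤ b → s ≤ (p - 2) * b := by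
    intro b hb
    have : s ≤ ∑ k ∈ Finset.Ico 1 (p - 1), b := Finset.sum_le_sum fun k hk => by
      rw [Finset.mem_Ico] at hk
      exact (Submodule.finrank_mono (hup0 k hk.1)).trans hb
    rw [Finset.sum_const, Nat.card_Ico, smul_eq_mul] at this
    have e : p - 1 - 1 = p - 2 := by omega
    rwa [e] at this
  rw [← hm]
  obtain ⟨a, ha⟩ : ∃ a, p = a + 3 := ⟨p - 3, by omega⟩
  by_cases hε : ∃ κ, D κ = 0 ∧ ev κ ≠ 0
  · obtain ⟨κ, hκ1, hκ2⟩ := hε
    -- the image of the kernel under `ev` is everything
    have hker : finrank F (LinearMap.ker D) = c + 2 := by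
      have e1 := LinearMap.finrank_range_add_finrank_ker (ev.domRestrict (LinearMap.ker D))
      have e2 : LinearMap.range (ev.domRestrict (LinearMap.ker D)) = ⊤ := by
        rw [LinearMap.range_domRestrict, eq_top_iff]
        intro y _
        refine ⟨(y / ev κ) • κ, ?_, ?_⟩
        · rw [SetLike.mem_coe, LinearMap.mem_ker, map_smul, hκ1, smul_zero]
        · rw [map_smul, smul_eq_mul, div_mul_cancel₀ _ hκ2]
      have e3 : (LinearMap.ker (ev.domRestrict (LinearMap.ker D))) =
          Submodule.comap (LinearMap.ker D).subtype (LinearMap.ker ev) := by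
        ext x
        simp
      have e4 := Submodule.finrank_map_subtype_eq (LinearMap.ker D)
        (Submodule.comap (LinearMap.ker D).subtype (LinearMap.ker ev))
      rw [Submodule.map_comap_subtype] at e4
      rw [e2, e3, ← e4, finrank_top, Module.finrank_self] at e1
      rw [← e1, hW]
      ring
    have hWM : (W ⊓ LinearMap.range D : Submodule F X) ≤ M := by
      rintro x ⟨⟨hx1, hx2⟩, ψ, hψ⟩
      refine (h1 x hx1 hx2).2 ⟨ψ - (ev ψ / ev κ) • κ, ?_, ?_⟩
      · rw [map_sub, map_smul, hκ1, smul_zero, sub_zero, hψ]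
      · rw [map_sub, map_smul, smul_eq_mul, div_mul_cancel₀ _ hκ2, sub_self]
    have h5 := hsup m (by rw [hm]; exact Submodule.finrank_mono hWM)
    have h6 : s = (p - 2) * m := le_antisymm h5 hslow
    rw [hker, h6, ha] at hsum
    have e7 : a + 3 - 2 = a + 1 := by omega
    rw [e7] at hsum
    have h8 : (a + 2) * c = (a + 2) * m := by nlinarith
    exact (Nat.eq_of_mul_eq_mul_left (by omega) h8).symm
  · push Not at hε
    have hker : finrank F (LinearMap.ker D) = c + 1 := by
      have e1 : LinearMap.ker D = W := by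
        refine le_antisymm (fun x hx => ⟨hx, ?_⟩) inf_le_left
        exact hε x hx
      rw [e1, hW]
    have hWM : finrank F (W ⊓ LinearMap.range D : Submodule F X) ≤ m + 1 := by
      by_cases h0 : ∃ ψ, D ψ ∈ W ∧ ev ψ ≠ 0
      · obtain ⟨ψ0, h01, h02⟩ := h0
        have h7 : (W ⊓ LinearMap.range D : Submodule F X) ≤ M ⊔ Submodule.span F {D ψ0} := by
          rintro x ⟨hx, ψ, hψ⟩
          have e1 : x = (x - (ev ψ / ev ψ0) • D ψ0) + (ev ψ / ev ψ0) • D ψ0 := by abel
          rw [e1]
          refine Submodule.add_mem_sup ?_ (Submodule.smul_mem _ _ (Submodule.mem_span_singleton_self _))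
          have hw : x - (ev ψ / ev ψ0) • D ψ0 ∈ W := W.sub_mem hx (W.smul_mem _ h01)
          refine (h1 _ hw.1 hw.2).2 ⟨ψ - (ev ψ / ev ψ0) • ψ0, ?_, ?_⟩
          · rw [map_sub, map_smul, hψ]
          · rw [map_sub, map_smul, smul_eq_mul, div_mul_cancel₀ _ h02, sub_self]
        refine (Submodule.finrank_mono h7).trans ((Submodule.finrank_add_le_finrank_add_finrank _ _).trans ?_)
        rw [hm]
        have h9 := finrank_span_le_card (R := F) ({D ψ0} : Set X)
        rw [Set.toFinset_singleton, Finset.card_singleton] at h9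
        omega
      · push Not at h0
        have h7 : (W ⊓ LinearMap.range D : Submodule F X) ≤ M := by
          rintro x ⟨hx, ψ, hψ⟩
          refine (h1 _ hx.1 hx.2).2 ⟨ψ, hψ, h0 ψ ?_⟩
          rw [hψ]
          exact hx
        have := Submodule.finrank_mono h7
        omega
    have h5 := hsup (m + 1) hWM
    rw [hker, ha] at hsum
    rw [ha] at h5 hslow
    have e7 : a + 3 - 2 = a + 1 := by omega
    rw [e7] at h5 hslow
    rcases lt_trichotomy m c with h8 | h8 | h8
    · exfalso
      obtain ⟨t, ht⟩ : ∃ t, c = m + 1 + t := ⟨c - m - 1, by omega⟩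
      subst ht
      nlinarith
    · exact h8
    · exfalso
      obtain ⟨t, ht⟩ : ∃ t, m = c + 1 + t := ⟨m - c - 1, by omega⟩
      subst ht
      nlinarith

end

end Pool.Agent.L7h23.SG
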