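import Pool.Agent.L7h23.SG.Base
import Pool.Agent.L7h23.SG.La

/-!
Project SG (helper48), part CNT: `χ ∪ ·` has rank one.
-/

set_option autoImplicit false

namespace Pool.Agent.L7h23.SG

open Pool.Agent.L7h48.SG
open Module

variable {p : ℕ} [Fact p.Prime] {G : Type} [Group G] [TopologicalSpace G]

lemma rank_null2 {F X Y : Type*} [Field F] [AddCommGroup X] [Module F X] [FiniteDimensional F X]
    [AddCommGroup Y] [Module F Y] (D : X →ₗ[F] Y) (R : Submodule F X) :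
    finrank F R = finrank F (R.map D) + finrank F (LinearMap.ker D ⊓ R : Submodule F X) := by
  have h := LinearMap.finrank_range_add_finrank_ker (D.domRestrict R)
  rw [LinearMap.range_domRestrict] at h
  rw [← h]
  congr 1
  have e1 : (LinearMap.ker (D.domRestrict R)) = Submodule.comap R.subtype (LinearMap.ker D) := by
    ext x
    simp
  rw [e1]
  have e2 := Submodule.finrank_map_subtype_eq R (Submodule.comap R.subtype (LinearMap.ker D))
  rw [← e2, Submodule.map_comap_subtype, inf_comm]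

section coset

variable {U Q : Subgroup G} {χ : G → ZMod p} {σ : G}

/-- the component of `g` in the kernel -/
lemma comp_mem (hχ : χ ∈ HP p U) (hQ : IsKer p U Q χ) (hσ : σ ∈ U) (h1 : χ σ = 1) {g : G} (hg : g ∈ U) :
    (σ ^ (χ g).val)⁻¹ * g ∈ Q := by
  have hs := U.pow_mem hσ (χ g).val
  refine ker_mem hQ (U.mul_mem (U.inv_mem hs) hg) ?_
  rw [hp_mul hχ (U.inv_mem hs) hg, hp_inv hχ hs, hp_pow hχ hσ, h1, mul_one, ZMod.natCast_zmod_val]
  ring

lemma val_add_ex (x y : ZMod p) : ∃ t : ℕ, x.val + y.val = p * t + (x + y).val := by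
  refine ⟨(x.val + y.val) / p, ?_⟩
  rw [ZMod.val_add]
  exact (Nat.div_add_mod _ _).symm

lemma inv_pow_conj (hχ : χ ∈ HP p U) (hQ : IsKer p U Q χ) (hσ : σ ∈ U) {φ : G → ZMod p}
    (hinv : ∀ u ∈ Q, φ (σ * u * σ⁻¹) = φ u) (j : ℕ) : ∀ u ∈ Q, φ ((σ ^ j)⁻¹ * u * σ ^ j) = φ u := by
  induction j with
  | zero => intro u _; rw [pow_zero, inv_one, one_mul, mul_one]
  | succ j ih =>
    intro u hu
    have h1 : (σ ^ (j + 1))⁻¹ * u * σ ^ (j + 1) ∈ Q := ker_conj' hχ hQ hu (U.pow_mem hσ _)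
    rw [← hinv _ h1]
    have e : σ * ((σ ^ (j + 1))⁻¹ * u * σ ^ (j + 1)) * σ⁻¹ = (σ ^ j)⁻¹ * u * σ ^ j := by
      rw [pow_succ']
      group
    rw [e]
    exact ih u hu

/-- extension of an invariant homomorphism -/
lemma ext_inv [IsTopologicalGroup G] (hU : IsOpen (U : Set G)) (hχ : χ ∈ HP p U) (hQ : IsKer p U Q χ) (hσ : σ ∈ U)
    (h1 : χ σ = 1) {φ : G → ZMod p} (hφ : φ ∈ HP p Q) (hinv : ∀ u ∈ Q, φ (σ * u * σ⁻¹) = φ u)
    (h0 : φ (σ ^ p) = 0) : ∃ b ∈ HP p U, ∀ u ∈ Q, b u = φ u := by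
  classical
  have hlc : IsLocallyConstant (fun g => φ ((σ ^ (χ g).val)⁻¹ * g)) := by
    rw [IsLocallyConstant.iff_exists_open]
    intro g
    obtain ⟨V, hV, hgV, hVf⟩ := (IsLocallyConstant.iff_exists_open χ).1 (hp_lc hχ) g
    have hl : IsLocallyConstant (fun x => φ ((σ ^ (χ g).val)⁻¹ * x)) :=
      (hp_lc hφ).comp_continuous (by fun_prop)
    obtain ⟨V', hV', hgV', hVf'⟩ := (IsLocallyConstant.iff_exists_open _).1 hl g
    refine ⟨V ∩ V', hV.inter hV', ⟨hgV, hgV'⟩, fun x hx => ?_⟩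
    rw [hVf x hx.1]
    exact hVf' x hx.2
  refine ⟨fun g => if g ∈ U then φ ((σ ^ (χ g).val)⁻¹ * g) else 0, ⟨lc_ite hU hlc, ?_, fun x hx => if_neg hx⟩, ?_⟩
  · intro g hg h hh
    simp only [if_pos hg, if_pos hh, if_pos (U.mul_mem hg hh)]
    obtain ⟨t, ht⟩ := val_add_ex (χ g) (χ h)
    rw [hp_mul hχ hg hh]
    have hq := comp_mem hχ hQ hσ h1 hg
    have hr := comp_mem hχ hQ hσ h1 hh
    set i := (χ g).val
    set j := (χ h).val
    set k := (χ g + χ h).val
    have e1 : (σ ^ k)⁻¹ * (g * h) = (σ ^ p) ^ t * ((σ ^ j)⁻¹ * ((σ ^ i)⁻¹ * g) * σ ^ j) * ((σ ^ j)⁻¹ * h) := by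
      have e2 : (σ ^ k)⁻¹ = (σ ^ p) ^ t * (σ ^ j)⁻¹ * (σ ^ i)⁻¹ := by
        rw [mul_assoc, ← mul_inv_rev, ← pow_add, ht, pow_add, mul_inv_rev, ← pow_mul]
        have e3 : σ ^ (p * t) * ((σ ^ k)⁻¹ * (σ ^ (p * t))⁻¹) = (σ ^ k)⁻¹ := by
          have e4 : (σ ^ k)⁻¹ * (σ ^ (p * t))⁻¹ = (σ ^ (p * t))⁻¹ * (σ ^ k)⁻¹ := by
            rw [← mul_inv_rev, ← mul_inv_rev, ← pow_add, ← pow_add, add_comm]
          rw [e4, mul_inv_cancel_left]
        exact e3.symm
      rw [e2]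
      group
    have hpt : (σ ^ p) ^ t ∈ Q := Q.pow_mem (ker_pow hχ hQ hσ) t
    have hcj : (σ ^ j)⁻¹ * ((σ ^ i)⁻¹ * g) * σ ^ j ∈ Q := ker_conj' hχ hQ hq (U.pow_mem hσ j)
    rw [e1, hp_mul hφ (Q.mul_mem hpt hcj) hr, hp_mul hφ hpt hcj, hp_pow hφ (ker_pow hχ hQ hσ), h0, mul_zero, zero_add,
      inv_pow_conj hχ hQ hσ hinv j _ hq]
  · intro u hu
    simp only [if_pos (ker_le hQ hu), ker_zero hQ hu]
    rw [ZMod.val_zero, pow_zero, inv_one, one_mul]

/-- a homomorphism which is trivial on the kernel of `χ` -/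
lemma eq_smul_chi (hχ : χ ∈ HP p U) (hQ : IsKer p U Q χ) (hσ : σ ∈ U) (h1 : χ σ = 1) {b : G → ZMod p}
    (hb : b ∈ HP p U) (h0 : ∀ u ∈ Q, b u = 0) : b = b σ • χ := by
  ext g
  rw [Pi.smul_apply, smul_eq_mul]
  by_cases hg : g ∈ U
  · have hq := comp_mem hχ hQ hσ h1 hg
    have e : g = σ ^ (χ g).val * ((σ ^ (χ g).val)⁻¹ * g) := by group
    have e2 : b g = b (σ ^ (χ g).val) + b ((σ ^ (χ g).val)⁻¹ * g) := by
      rw [← hp_mul hb (U.pow_mem hσ _) (ker_le hQ hq), ← e]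
    rw [e2, h0 _ hq, add_zero, hp_pow hb hσ, ZMod.natCast_zmod_val, mul_comm]
  · rw [hp_out hb hg, hp_out hχ hg, mul_zero]

end coset

theorem s_CNT (hHEI : S_HEI) (hSHO : S_SHO) : S_CNT := by
  classical
  intro p _ hp2 G _ _ _ U Q hU χ hχ hQ σ hσ h1 c hc hAf hAd hXf hXd hNR
  have hp3 : 3 ≤ p := by
    have := (Fact.out : p.Prime).two_le
    omega
  have hQo : IsOpen (Q : Set G) := ker_isOpen hU hχ hQ
  have hQU := ker_le hQ
  have hhei := hHEI p hp2 G U Q hU χ hχ hQ σ hσ h1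
  obtain ⟨-, hsho2, hsho3⟩ := hSHO p G U Q hU χ hχ hQ σ hσ h1
  set S := Sop hχ hQ hσ with hS
  set D : HP p Q →ₗ[ZMod p] HP p Q := S - 1 with hD
  have hDa : ∀ (φ : HP p Q) (x : G), (D φ).1 x = φ.1 (σ * x * σ⁻¹) - φ.1 x := fun φ x => rfl
  have hDp : D ^ p = 0 := end_sub_pow S (Sop_pow_p hχ hQ hσ)
  let ev : HP p Q →ₗ[ZMod p] ZMod p :=
    { toFun := fun φ => φ.1 (σ ^ p)
      map_add' := fun _ _ => rfl
      map_smul' := fun _ _ => rfl }
  have heva : ∀ φ : HP p Q, ev φ = φ.1 (σ ^ p) := fun _ => rfl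
  have hev : ∀ φ, ev (D φ) = 0 := by
    intro φ
    rw [heva, hDa]
    have e : σ * σ ^ p * σ⁻¹ = σ ^ p := by
      rw [← pow_succ', pow_succ, mul_inv_cancel_right]
    rw [e, sub_self]
  let rs : HP p U →ₗ[ZMod p] HP p Q :=
    { toFun := fun b => ⟨fun x => if x ∈ Q then b.1 x else 0, hp_res hQo hQU b.2⟩
      map_add' := by
        intro b b'
        ext x
        change (if x ∈ Q then b.1 x + b'.1 x else 0) = (if x ∈ Q then b.1 x else 0) + (if x ∈ Q then b'.1 x else 0)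
        split_ifs
        · rfl
        · rw [add_zero]
      map_smul' := by
        intro a b
        ext x
        change (if x ∈ Q then a * b.1 x else 0) = a * (if x ∈ Q then b.1 x else 0)
        split_ifs
        · rfl
        · rw [mul_zero] }
  have hrsa : ∀ (b : HP p U) (x : G), x ∈ Q → (rs b).1 x = b.1 x := fun b x hx => if_pos hx
  have hrso : ∀ (φ : HP p Q) (x : G), x ∉ Q → φ.1 x = 0 := fun φ x hx => hp_out φ.2 hx
  have hext : ∀ φ φ' : HP p Q, (∀ x ∈ Q, φ.1 x = φ'.1 x) → φ = φ' := by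
    intro φ φ' h
    ext x
    by_cases hx : x ∈ Q
    · exact h x hx
    · rw [hrso φ x hx, hrso φ' x hx]
  -- the kernel and the range of the restriction
  have hker : LinearMap.ker rs = Submodule.span (ZMod p) {(⟨χ, hχ⟩ : HP p U)} := by
    ext b
    rw [LinearMap.mem_ker, Submodule.mem_span_singleton]
    constructor
    · intro h
      refine ⟨b.1 σ, ?_⟩
      ext g
      have e := eq_smul_chi hχ hQ hσ h1 b.2 (fun u hu => by
        rw [← hrsa b u hu, h]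
        rfl)
      exact (congrFun e g).symm
    · rintro ⟨a, rfl⟩
      apply hext
      intro x hx
      rw [hrsa _ x hx]
      change a * χ x = 0
      rw [ker_zero hQ hx, mul_zero]
  have hχ0 : (⟨χ, hχ⟩ : HP p U) ≠ 0 := by
    intro h
    have := congrFun (congrArg Subtype.val h) σ
    change χ σ = 0 at this
    rw [h1] at this
    exact one_ne_zero this
  have hkerd : finrank (ZMod p) (LinearMap.ker rs) = 1 := by
    rw [hker]
    exact finrank_span_singleton hχ0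
  have hrange : LinearMap.range rs = LinearMap.ker D ⊓ LinearMap.ker ev := by
    ext w
    rw [Submodule.mem_inf, LinearMap.mem_ker, LinearMap.mem_ker]
    constructor
    · rintro ⟨b, rfl⟩
      constructor
      · apply hext
        intro x hx
        rw [hDa, hrsa b x hx, hrsa b _ (ker_conj hχ hQ hx hσ), hp_conj b.2 (hQU hx) hσ, sub_self]
        rfl
      · rw [heva, hrsa b _ (ker_pow hχ hQ hσ)]
        exact hp_pow_p b.2 hσ
    · rintro ⟨h2, h3⟩
      obtain ⟨b, hb, hbw⟩ := ext_inv hU hχ hQ hσ h1 w.2 (fun u hu => by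
        have := congrFun (congrArg Subtype.val h2) u
        rw [hDa] at this
        exact sub_eq_zero.1 this) h3
      refine ⟨⟨b, hb⟩, ?_⟩
      apply hext
      intro x hx
      rw [hrsa _ x hx]
      exact hbw x hx
  have hrd : finrank (ZMod p) (LinearMap.range rs) = c + 1 := by
    have := LinearMap.finrank_range_add_finrank_ker rs
    rw [hkerd, hAd] at this
    omega
  -- the annihilator
  set N' : Submodule (ZMod p) (HP p U) := (Ann p U χ).comap (HP p U).subtype with hN'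
  have hmemN : ∀ b : HP p U, b ∈ N' ↔ IsB p U (cup p χ b.1) := by
    intro b
    rw [hN', Submodule.mem_comap]
    exact ⟨fun h => h.2, fun h => ⟨b.2, h⟩⟩
  have hN'd : finrank (ZMod p) N' = finrank (ZMod p) (Ann p U χ) := by
    rw [← Submodule.finrank_map_subtype_eq, hN', Submodule.map_comap_subtype, inf_eq_right.2]
    intro b hb
    exact hb.1
  have hχN : (⟨χ, hχ⟩ : HP p U) ∈ N' := by
    rw [hmemN]
    refine (hhei χ hχ).2 ⟨0, (HP p Q).zero_mem, fun u hu => ?_, rfl⟩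
    rw [ker_zero hQ hu, add_zero]
    rfl
  set M := N'.map rs with hM
  have hMd : finrank (ZMod p) N' = finrank (ZMod p) M + 1 := by
    rw [rank_null2 rs N', hM]
    congr 1
    rw [inf_eq_left.2, hkerd]
    rw [hker, Submodule.span_le, Set.singleton_subset_iff]
    exact hχN
  have key := la_main p c hp3 D hDp ev hev M ?_ ?_ ?_ (by rw [← hrange]; exact hrd) hXd
  · rw [← hN'd, hMd, key]
  · -- h1
    intro w hw1 hw2
    constructor
    · rintro ⟨b, hb, rfl⟩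
      obtain ⟨ψ, hψ, h3, h4⟩ := (hhei b.1 b.2).1 ((hmemN b).1 hb)
      refine ⟨-⟨ψ, hψ⟩, ?_, ?_⟩
      · apply hext
        intro x hx
        rw [hDa, hrsa b x hx]
        change -ψ (σ * x * σ⁻¹) - -ψ x = b.1 x
        have h5 := h3 _ (ker_conj hχ hQ hx hσ)
        have e : σ⁻¹ * (σ * x * σ⁻¹) * σ = x := by group
        rw [e, hp_conj b.2 (hQU hx) hσ] at h5
        rw [h5]
        ring
      · change -ψ (σ ^ p) = 0
        rw [h4, neg_zero]
    · rintro ⟨ψ, hψ1, hψ2⟩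
      have hw : w ∈ LinearMap.range rs := by
        rw [hrange]
        exact ⟨hw1, hw2⟩
      obtain ⟨b, hb⟩ := hw
      refine ⟨b, ?_, hb⟩
      refine (hmemN b).2 ((hhei b.1 b.2).2 ⟨(-ψ).1, (-ψ).2, fun u hu => ?_, ?_⟩)
      · have h5 := congrFun (congrArg Subtype.val hψ1) (σ⁻¹ * u * σ)
        have hu' := ker_conj' hχ hQ hu hσ
        rw [hDa, ← hb, hrsa b _ hu', hp_conj' b.2 (hQU hu) hσ] at h5
        have e : σ * (σ⁻¹ * u * σ) * σ⁻¹ = u := by group
        rw [e] at h5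
        change -ψ.1 (σ⁻¹ * u * σ) = -ψ.1 u + b.1 u
        rw [← h5]
        ring
      · change -ψ.1 (σ ^ p) = 0
        rw [← heva, hψ2, neg_zero]
  · -- h2
    rintro w ⟨b, hb, rfl⟩
    obtain ⟨x, hx, hxs⟩ := hNR χ hχ b.1 b.2 ⟨σ, hσ, h1⟩ ((hmemN b).1 hb)
    obtain ⟨⟨φ, hφ, hφx⟩, -⟩ := hsho3 x hx
    obtain ⟨h5, -⟩ := hsho2 x hx φ hφ (fun u hu => (hφx u hu))
    refine ⟨⟨φ, hφ⟩, ?_⟩
    rw [hD, end_geom]
    apply hext
    intro u hu
    rw [hrsa b u hu, ← hxs u (hQU hu), h5 u hu, LinearMap.sum_apply]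
    rw [AddSubmonoidClass.coe_finset_sum, Finset.sum_apply]
    refine Finset.sum_congr rfl fun i _ => ?_
    rw [hS, Sop_pow]
  · rw [← hrange]
    rintro w ⟨b, hb, rfl⟩
    exact ⟨b, rfl⟩

end Pool.Agent.L7h23.SG
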