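import Pool.Agent.L7h23.SG.Zq

/-!
Project SG (helper48), part CU: numbers whose cube roots have integral valuations.
-/

set_option autoImplicit false

namespace Pool.Agent.L7h23.SG.Cu

open Pool.Agent.L7h48.SG Pool.Agent.L7h23.SG.Zq
open Pool.Agent.Y715.Gi (QB KK GK)
open QuadraticAlgebra (norm norm_def)

variable {a b : ℤ}

lemma vl_one (θ : QB) : vl θ (1 : QR a b) = 1 := by
  unfold vl
  show ((1 : ℤ) : QB) + ((0 : ℤ) : QB) * θ = 1
  push_cast; ring

lemma vl_mul {θ : QB} (hθ : θ ^ 2 = a + b * θ) (z w : QR a b) : vl θ (z * w) = vl θ z * vl θ w := by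
  unfold vl
  rw [QuadraticAlgebra.re_mul, QuadraticAlgebra.im_mul]
  push_cast
  linear_combination (-(z.im : QB) * (w.im : QB)) * hθ

lemma vl_pow {θ : QB} (hθ : θ ^ 2 = a + b * θ) (z : QR a b) (n : ℕ) : vl θ (z ^ n) = vl θ z ^ n := by
  induction n with
  | zero => rw [pow_zero, pow_zero, vl_one]
  | succ n ih => rw [pow_succ, pow_succ, vl_mul hθ, ih]

lemma norm_ne [IsDomain (QR a b)] {z : QR a b} (hz : z ≠ 0) : norm z ≠ 0 := by
  intro h
  have h1 := QuadraticAlgebra.algebraMap_norm_eq_mul_star z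
  rw [h, map_zero] at h1
  rcases mul_eq_zero.1 h1.symm with h2 | h2
  · exact hz h2
  · exact hz (star_eq_zero.1 h2)

/-- all multiplicities of primes which do not divide three are divisible by three -/
def Cb (z : QR a b) : Prop := ∀ π : QR a b, Prime π → ¬ π ∣ 3 → ∀ (e : ℕ) (y : QR a b), z = π ^ e * y → ¬ π ∣ y → 3 ∣ e

lemma Cb_div [IsDomain (QR a b)] {π z : QR a b} (hπ : Prime π) (h : Cb (π ^ 3 * z)) : Cb z := by
  intro ρ hρ hρ3 e y hz hy
  by_cases hd : ρ ∣ π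
  · obtain ⟨v, hv⟩ := hd
    have hvu : IsUnit v := by
      rcases hπ.irreducible.isUnit_or_isUnit hv with h1 | h1
      · exact absurd h1 hρ.not_unit
      · exact h1
    have h1 := h ρ hρ hρ3 (3 + e) (v ^ 3 * y) (by rw [hz, hv]; ring) (by
      intro h2
      rcases hρ.dvd_or_dvd h2 with h3 | h3
      · exact hρ.not_unit (isUnit_of_dvd_unit h3 (hvu.pow 3))
      · exact hy h3)
    omega
  · exact h ρ hρ hρ3 e (π ^ 3 * y) (by rw [hz]; ring) (by
      intro h2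
      rcases hρ.dvd_or_dvd h2 with h3 | h3
      · exact hd (hρ.dvd_of_dvd_pow h3)
      · exact hy h3)

theorem main [hd : IsDomain (QR a b)] [hp : IsPrincipalIdealRing (QR a b)] (n : ℕ) :
    ∀ z : QR a b, z ≠ 0 → (norm z).natAbs = n → Cb z → ∃ u T c : QR a b, IsUnit u ∧ T ≠ 0 ∧ c ≠ 0 ∧
        (∀ π : QR a b, Prime π → π ∣ T → π ∣ 3) ∧ z = u * T * c ^ 3 := by
  induction n using Nat.strong_induction_on with
  | _ n ih =>
  intro z hz hn hC
  by_cases hex : ∃ π : QR a b, Prime π ∧ ¬ π ∣ 3 ∧ π ∣ z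
  · obtain ⟨π, hπ, hπ3, hπz⟩ := hex
    have hfm : FiniteMultiplicity π z := FiniteMultiplicity.of_not_isUnit hπ.not_unit hz
    obtain ⟨y, hy, hyd⟩ := hfm.exists_eq_pow_mul_and_not_dvd
    have h3 := hC π hπ hπ3 _ y hy hyd
    have h0 : multiplicity π z ≠ 0 := by
      intro h
      rw [h, pow_zero, one_mul] at hy
      exact hyd (hy ▸ hπz)
    obtain ⟨e, he⟩ : ∃ e, multiplicity π z = 3 + e := ⟨multiplicity π z - 3, by omega⟩
    rw [he, pow_add, mul_assoc] at hy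
    set z' := π ^ e * y with hz'
    have hz'0 : z' ≠ 0 := by
      intro h
      rw [h, mul_zero] at hy
      exact hz hy
    have hC' : Cb z' := Cb_div hπ (hy ▸ hC)
    have hnz : (norm z).natAbs = (norm π).natAbs ^ 3 * (norm z').natAbs := by
      rw [hy, nmul, map_pow, Int.natAbs_mul, Int.natAbs_pow]
    have hπ1 : 2 ≤ (norm π).natAbs := by
      have h1 : (norm π).natAbs ≠ 0 := Int.natAbs_ne_zero.2 (norm_ne hπ.ne_zero)
      have h2 : (norm π).natAbs ≠ 1 := fun h => hπ.not_unit ((unit_iff π).2 h)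
      omega
    have hz'1 : 1 ≤ (norm z').natAbs := Nat.one_le_iff_ne_zero.2 (Int.natAbs_ne_zero.2 (norm_ne hz'0))
    have hlt : (norm z').natAbs < n := by
      rw [← hn, hnz]
      have h8 : 8 ≤ (norm π).natAbs ^ 3 := by
        calc 8 = 2 ^ 3 := by norm_num
          _ ≤ _ := Nat.pow_le_pow_left hπ1 3
      nlinarith
    obtain ⟨u, T, c, hu, hT, hc, hTd, hzz⟩ := ih _ hlt z' hz'0 rfl hC'
    refine ⟨u, T, π * c, hu, hT, mul_ne_zero hπ.ne_zero hc, hTd, ?_⟩
    rw [hy, hzz]; ring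
  · push Not at hex
    refine ⟨1, z, 1, isUnit_one, hz, one_ne_zero, fun π hπ hπz => ?_, by ring⟩
    by_contra h
    exact hex π hπ h hπz

theorem s_CU' (hPL : S_PL) : S_CU := by
  intro a b hd hp θ g hθ hg hinj z x hz hx hval
  haveI := hd
  haveI := hp
  refine main _ z hz rfl ?_
  intro π hπ hπ3 e y hzy hy
  obtain ⟨q, hq, ι, hq3, -, h1, h2⟩ := hPL a b hd hp θ g hθ hg hinj π hπ hπ3
  haveI := hq
  obtain ⟨m, hm⟩ := hval q ι hq3
  have hqp : q.Prime := hq.out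
  have hq1 : (1 : ℝ) < q := by exact_mod_cast hqp.one_lt
  have h3 : (‖ι x‖ ^ 2) ^ 3 = (‖ι (vl θ π)‖ ^ 2) ^ e := by
    have e1 : ‖ι x‖ ^ 3 = ‖ι (vl θ π)‖ ^ e := by
      rw [← norm_pow, ← map_pow, hx, hzy, vl_mul hθ, vl_pow hθ, map_mul, norm_mul, h1 y hy, mul_one, map_pow,
        norm_pow]
    calc (‖ι x‖ ^ 2) ^ 3 = (‖ι x‖ ^ 3) ^ 2 := by ring
      _ = (‖ι (vl θ π)‖ ^ e) ^ 2 := by rw [e1]
      _ = _ := by rw [← pow_mul, ← pow_mul, mul_comm]
  rw [hm] at h3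
  have hinj2 : Function.Injective (fun k : ℤ => (q : ℝ) ^ k) := zpow_right_injective₀ (by linarith) hq1.ne'
  rcases h2 with h2 | h2
  · rw [h2, ← zpow_natCast, ← zpow_mul, ← zpow_natCast, ← zpow_mul] at h3
    have h4 := hinj2 h3
    push_cast at h4
    omega
  · rw [h2, ← zpow_natCast, ← zpow_mul, ← zpow_natCast, ← zpow_mul] at h3
    have h4 := hinj2 h3
    push_cast at h4
    omega

end Pool.Agent.L7h23.SG.Cu

namespace Pool.Agent.L7h23.SG

open Pool.Agent.L7h48.SG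

theorem s_CU (hPL : S_PL) : S_CU := Cu.s_CU' hPL

end Pool.Agent.L7h23.SG
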