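import Pool.Agent.L7h23.SG.Base

/-!
Project SG (helper48), part KRS: the kernel of the restriction in degree two.
-/

set_option autoImplicit false

namespace Pool.Agent.L7h23.SG

open Pool.Agent.L7h48.SG

variable {p : ℕ} [Fact p.Prime] {G : Type} [Group G] [TopologicalSpace G]

/-- translations of functions on `ZMod p` -/
def tr (a : ZMod p) : (ZMod p → ZMod p) →ₗ[ZMod p] (ZMod p → ZMod p) where
  toFun f t := f (t + a)
  map_add' _ _ := rfl
  map_smul' _ _ := rfl

lemma tr_apply (a : ZMod p) (f : ZMod p → ZMod p) (t : ZMod p) : tr a f t = f (t + a) := rfl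

lemma tr_comm (a b : ZMod p) : Commute (tr a) (tr b) := by
  refine LinearMap.ext fun f => funext fun t => ?_
  change f (t + a + b) = f (t + b + a)
  rw [add_right_comm]

lemma tr_pow (n : ℕ) (f : ZMod p → ZMod p) (t : ZMod p) : (tr (p := p) 1 ^ n) f t = f (t + n) := by
  induction n generalizing t with
  | zero => rw [pow_zero, Nat.cast_zero, add_zero]; rfl
  | succ n ih =>
    rw [pow_succ', Module.End.mul_apply, tr_apply, ih]
    congr 1
    push_cast
    ring

/-- the difference operator -/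
def De : (ZMod p → ZMod p) →ₗ[ZMod p] (ZMod p → ZMod p) := tr 1 - 1

lemma De_apply (f : ZMod p → ZMod p) (t : ZMod p) : De f t = f (t + 1) - f t := rfl

lemma De_pow_p : (De (p := p)) ^ p = 0 := by
  refine end_sub_pow _ (LinearMap.ext fun f => funext fun t => ?_)
  rw [tr_pow, CharP.cast_eq_zero, add_zero]
  rfl

lemma sum_shift (f : ZMod p → ZMod p) (t : ZMod p) : ∑ i ∈ Finset.range p, f (t + (i : ZMod p)) = ∑ s, f s := by
  refine Finset.sum_bij' (fun i _ => t + (i : ZMod p)) (fun s _ => (s - t).val) ?_ ?_ ?_ ?_ ?_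
  · intro i _; exact Finset.mem_univ _
  · intro s _; rw [Finset.mem_range]; exact ZMod.val_lt _
  · intro i hi
    rw [Finset.mem_range] at hi
    rw [add_sub_cancel_left, ZMod.val_natCast, Nat.mod_eq_of_lt hi]
  · intro s _
    rw [ZMod.natCast_zmod_val]
    ring
  · intro i _; rfl

lemma De_pow_sub_one (f : ZMod p → ZMod p) (t : ZMod p) : ((De (p := p)) ^ (p - 1)) f t = ∑ s, f s := by
  unfold De
  rw [end_geom, LinearMap.sum_apply, Finset.sum_apply, ← sum_shift f t]
  exact Finset.sum_congr rfl fun i _ => tr_pow i f t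

lemma De_tr (a : ZMod p) (j : ℕ) (f : ZMod p → ZMod p) : (De ^ j) (tr a f) = tr a ((De ^ j) f) := by
  have h : Commute (De (p := p)) (tr a) := (tr_comm 1 a).sub_left (Commute.one_left _)
  have h2 := (h.pow_left j).eq
  have h3 := congrArg (fun L : (ZMod p → ZMod p) →ₗ[ZMod p] (ZMod p → ZMod p) => L f) h2
  exact h3

lemma De_const (c : ZMod p) (j : ℕ) (hj : 1 ≤ j) : (De (p := p) ^ j) (fun _ => c) = 0 := by
  obtain ⟨k, rfl⟩ := Nat.exists_eq_add_of_le' hj
  rw [pow_succ, Module.End.mul_apply]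
  have : De (p := p) (fun _ => c) = 0 := by
    funext t
    rw [De_apply, sub_self]
    rfl
  rw [this, map_zero]

/-- integration of a constant -/
lemma of_De (f : ZMod p → ZMod p) (c : ZMod p) (h : ∀ t, De f t = c) (t : ZMod p) : f t = f 0 + t * c := by
  have h1 : ∀ n : ℕ, f (n : ZMod p) = f 0 + n * c := by
    intro n
    induction n with
    | zero => rw [Nat.cast_zero, zero_mul, add_zero]
    | succ n ih =>
      have h2 := h (n : ZMod p)
      rw [De_apply, sub_eq_iff_eq_add] at h2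
      push_cast
      rw [h2, ih]
      ring
  have := h1 t.val
  rwa [ZMod.natCast_zmod_val] at this

section main

variable {U Q : Subgroup G} {χ : G → ZMod p}

/-- the relation -/
def Rel (U : Subgroup G) (χ : G → ZMod p) (e : G → G → ZMod p) (F : G → ZMod p → ZMod p) : Prop :=
  ∀ x ∈ U, ∀ y ∈ U, ∀ t, e x y = F x t + F y (t + χ x) - F (x * y) t

/-- the relation after `j ≥ 1` differences -/
lemma Rel.diff {e : G → G → ZMod p} {F : G → ZMod p → ZMod p} (hF : Rel U χ e F) {j : ℕ} (hj : 1 ≤ j) {x y : G}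
    (hx : x ∈ U) (hy : y ∈ U) (t : ZMod p) :
    (De ^ j) (F x) t + (De ^ j) (F y) (t + χ x) - (De ^ j) (F (x * y)) t = 0 := by
  have h1 : (fun _ : ZMod p => e x y) = F x + tr (χ x) (F y) - F (x * y) := by
    funext t
    exact hF x hx y hy t
  have h2 := congrArg (De ^ j) h1
  rw [De_const _ j hj, map_sub, map_add, De_tr] at h2
  exact (congrFun h2 t).symm

lemma isX_diff {x : G → ZMod p → ZMod p} (hx : IsX p U χ x) (j : ℕ) {g h : G} (hg : g ∈ U) (hh : h ∈ U)
    (t : ZMod p) : (De ^ j) (x (g * h)) t = (De ^ j) (x g) t + (De ^ j) (x h) (t + χ g) := by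
  have h1 : x (g * h) = x g + tr (χ g) (x h) := by
    funext t
    exact hx.2 g hg h hh t
  have h2 := congrArg (De ^ j) h1
  rw [map_add, De_tr] at h2
  exact congrFun h2 t

/-- the last nonzero difference is a homomorphism `b`, and `χ ∪ b` is a coboundary -/
lemma last_diff {e : G → G → ZMod p} {F : G → ZMod p → ZMod p} (hF : Rel U χ e F)
    {m : ℕ} (h0 : ∀ g ∈ U, (De ^ (m + 3)) (F g) = 0) :
    (∀ g ∈ U, ∀ t, (De ^ (m + 2)) (F g) t = (De ^ (m + 2)) (F g) 0) ∧
    (∀ g ∈ U, ∀ t, (De ^ (m + 1)) (F g) t = (De ^ (m + 1)) (F g) 0 + t * (De ^ (m + 2)) (F g) 0) ∧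
    (∀ g ∈ U, ∀ h ∈ U, (De ^ (m + 2)) (F (g * h)) 0 = (De ^ (m + 2)) (F g) 0 + (De ^ (m + 2)) (F h) 0) := by
  have a1 : ∀ g ∈ U, ∀ t, (De ^ (m + 2)) (F g) t = (De ^ (m + 2)) (F g) 0 := by
    intro g hg t
    have h1 : ∀ t, De ((De ^ (m + 2)) (F g)) t = 0 := by
      intro t
      rw [← Module.End.mul_apply, ← pow_succ']
      exact congrFun (h0 g hg) t
    rw [of_De _ 0 h1 t, mul_zero, add_zero]
  refine ⟨a1, ?_, ?_⟩
  · intro g hg t
    refine of_De _ _ (fun t => ?_) t
    rw [← Module.End.mul_apply, ← pow_succ']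
    exact a1 g hg t
  · intro g hg h hh
    have h1 := hF.diff (j := m + 2) (by omega) hg hh 0
    rw [a1 h hh (0 + χ g)] at h1
    exact (sub_eq_zero.1 h1).symm

variable [IsTopologicalGroup G]

lemma krs_step (hU : IsOpen (U : Set G)) (hχ : χ ∈ HP p U) (h1 : ∃ σ ∈ U, χ σ = 1) (hNR : NR p U)
    {e : G → G → ZMod p} {m : ℕ} (hm : m + 3 ≤ p)
    (h : ∃ F : G → ZMod p → ZMod p, IsLocallyConstant F ∧ Rel U χ e F ∧ ∀ g ∈ U, (De ^ (m + 3)) (F g) = 0) :
    ∃ F : G → ZMod p → ZMod p, IsLocallyConstant F ∧ Rel U χ e F ∧ ∀ g ∈ U, (De ^ (m + 2)) (F g) = 0 := by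
  classical
  obtain ⟨F, hFl, hF, h0⟩ := h
  obtain ⟨c1, c2, c3⟩ := last_diff hF h0
  obtain ⟨b, hb⟩ : ∃ b : G → ZMod p, ∀ g, b g = if g ∈ U then (De ^ (m + 2)) (F g) 0 else 0 := ⟨_, fun _ => rfl⟩
  have hbU : ∀ g ∈ U, b g = (De ^ (m + 2)) (F g) 0 := fun g hg => by rw [hb, if_pos hg]
  have hbH : b ∈ HP p U := by
    refine ⟨?_, ?_, ?_⟩
    · have e1 : b = fun g => if g ∈ U then (De ^ (m + 2)) (F g) 0 else 0 := funext hb
      rw [e1]
      exact lc_ite hU (hFl.comp (fun f => (De ^ (m + 2)) f 0))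
    · intro x hx y hy
      rw [hbU x hx, hbU y hy, hbU _ (U.mul_mem hx hy)]
      exact c3 x hx y hy
    · intro x hx
      rw [hb, if_neg hx]
  have hbB : IsB p U (cup p χ b) := by
    refine ⟨fun g => -(De ^ (m + 1)) (F g) 0, hFl.comp (fun f => -(De ^ (m + 1)) f 0), fun x hx y hy => ?_⟩
    have h2 := hF.diff (j := m + 1) (by omega) hx hy 0
    rw [zero_add, c2 y hy (χ x)] at h2
    change χ x * b y = _
    rw [hbU y hy]
    linear_combination h2
  obtain ⟨x, hx, hxs⟩ := hNR χ hχ b hbH h1 hbB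
  refine ⟨fun g => F g - (De ^ (p - (m + 3))) (x g), ?_, ?_, ?_⟩
  · have h3 : IsLocallyConstant (fun g => (De ^ (p - (m + 3))) (x g)) :=
      hx.1.comp (fun f => (De ^ (p - (m + 3))) f)
    exact hFl.sub h3
  · intro g hg h hh t
    have h3 := isX_diff hx (p - (m + 3)) hg hh t
    have h4 := hF g hg h hh t
    simp only [Pi.sub_apply]
    rw [h4, h3]
    ring
  · intro g hg
    rw [map_sub]
    have h3 : (De ^ (m + 2)) ((De ^ (p - (m + 3))) (x g)) = (De ^ (p - 1)) (x g) := by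
      rw [← Module.End.mul_apply, ← pow_add]
      congr 2
      omega
    rw [h3]
    funext t
    rw [Pi.sub_apply, De_pow_sub_one, hxs g hg, hbU g hg, c1 g hg t, sub_self]
    rfl

end main

theorem s_KRS (hSHT : S_SHT) : S_KRS := by
  classical
  intro p _ hp2 G _ _ _ U Q hU χ hχ hQ h1 hNR e he heQ
  have hp3 : 3 ≤ p := by
    have := (Fact.out : p.Prime).two_le
    omega
  obtain ⟨F, hFl, hF⟩ := hSHT p G U Q hU χ hχ hQ h1 (fun x y _ => e x y) (he.1.comp (fun c _ => c))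
    (fun x hx y hy z hz t => he.2 x hx y hy z hz) heQ
  have key : ∀ k : ℕ, k + 2 ≤ p → ∃ F : G → ZMod p → ZMod p, IsLocallyConstant F ∧ Rel U χ e F ∧
      ∀ g ∈ U, (De ^ (p - k)) (F g) = 0 := by
    intro k
    induction k with
    | zero =>
      intro _
      refine ⟨F, hFl, hF, fun g _ => ?_⟩
      rw [Nat.sub_zero, De_pow_p]
      rfl
    | succ k ih =>
      intro hk
      obtain ⟨m, hm⟩ : ∃ m, p - k = m + 3 := ⟨p - k - 3, by omega⟩
      have h2 := ih (by omega)
      rw [hm] at h2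
      have h3 := krs_step hU hχ h1 hNR (by omega) h2
      have h4 : p - (k + 1) = m + 2 := by omega
      rw [h4]
      exact h3
  obtain ⟨F', hFl', hF', h0⟩ := key (p - 2) (by omega)
  have e2 : p - (p - 2) = 2 := by omega
  rw [e2] at h0
  -- the homomorphism
  have c1 : ∀ g ∈ U, ∀ t, (De ^ 1) (F' g) t = (De ^ 1) (F' g) 0 := by
    intro g hg t
    have h2 : ∀ t, De ((De ^ 1) (F' g)) t = 0 := by
      intro t
      rw [← Module.End.mul_apply, ← pow_succ']
      exact congrFun (h0 g hg) t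
    rw [of_De _ 0 h2 t, mul_zero, add_zero]
  have c2 : ∀ g ∈ U, ∀ t, F' g t = F' g 0 + t * (De ^ 1) (F' g) 0 := by
    intro g hg t
    refine of_De _ _ (fun t => ?_) t
    have := c1 g hg t
    rwa [pow_one] at this
  have c3 : ∀ g ∈ U, ∀ h ∈ U, (De ^ 1) (F' (g * h)) 0 = (De ^ 1) (F' g) 0 + (De ^ 1) (F' h) 0 := by
    intro g hg h hh
    have h2 := hF'.diff (j := 1) le_rfl hg hh 0
    rw [c1 h hh (0 + χ g)] at h2
    exact (sub_eq_zero.1 h2).symm
  refine ⟨fun g => if g ∈ U then (De ^ 1) (F' g) 0 else 0, ⟨?_, ?_, fun x hx => if_neg hx⟩, ?_⟩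
  · exact lc_ite hU (hFl'.comp (fun f => (De ^ 1) f 0))
  · intro x hx y hy
    simp only [if_pos hx, if_pos hy, if_pos (U.mul_mem hx hy)]
    exact c3 x hx y hy
  · refine ⟨fun g => F' g 0, hFl'.comp (fun f => f 0), fun x hx y hy => ?_⟩
    have h2 := hF' x hx y hy 0
    rw [zero_add, c2 y hy (χ x)] at h2
    simp only [cup, if_pos hy]
    rw [h2]
    ring

end Pool.Agent.L7h23.SG
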