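import Pool.Agent.L7h23.SG.Mn1

/-!
Project SG (helper48), part MAIN: the result of part A.
-/

set_option autoImplicit false
set_option linter.unusedSectionVars false

namespace Pool.Agent.L7h23.SG

open Pool.Agent.L7h48.SG

/-! ### linear algebra -/

section lin
variable {F V : Type*} [Field F] [AddCommGroup V] [Module F V]

/-- two vectors outside a subspace of codimension one -/
lemma codim_one {P H : Submodule F V} (hH : Module.Finite F H) (hPH : P ≤ H)
    (hP : Module.finrank F P + 1 = Module.finrank F H) {a b : V} (ha : a ∈ H) (haP : a ∉ P)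
    (hb : b ∈ H) : ∃ c : F, b - c • a ∈ P := by
  have h1 : P < P ⊔ Submodule.span F {a} := by
    refine lt_of_le_of_ne le_sup_left fun h => haP ?_
    rw [h]
    exact Submodule.mem_sup_right (Submodule.mem_span_singleton_self a)
  have h0 : P ⊔ Submodule.span F {a} ≤ H := by
    refine sup_le hPH ?_
    rw [Submodule.span_singleton_le_iff_mem]
    exact ha
  haveI := Submodule.finiteDimensional_of_le h0
  have h2 := Submodule.finrank_lt_finrank_of_lt h1
  have h3 : P ⊔ Submodule.span F {a} = H := by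
    apply Submodule.eq_of_le_of_finrank_le h0
    omega
  have h4 : b ∈ P ⊔ Submodule.span F {a} := by rw [h3]; exact hb
  obtain ⟨p, hp, z, hz, rfl⟩ := Submodule.mem_sup.1 h4
  obtain ⟨t, rfl⟩ := Submodule.mem_span_singleton.1 hz
  exact ⟨t, by rwa [add_sub_cancel_right]⟩

/-- two proper subspaces do not cover the space -/
lemma exists_not_mem {H P Q : Submodule F V} (hP : ∃ a ∈ H, a ∉ P) (hQ : ∃ b ∈ H, b ∉ Q) :
    ∃ v ∈ H, v ∉ P ∧ v ∉ Q := by
  by_contra hcon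
  push Not at hcon
  obtain ⟨a, haH, ha⟩ := hP
  obtain ⟨b, hbH, hb⟩ := hQ
  have haQ := hcon a haH ha
  have hbP : b ∈ P := by
    by_contra h
    exact hb (hcon b hbH h)
  by_cases hab : a + b ∈ P
  · apply ha
    have := P.sub_mem hab hbP
    rwa [add_sub_cancel_right] at this
  · have h1 := hcon _ (H.add_mem haH hbH) hab
    apply hb
    have := Q.sub_mem h1 haQ
    rwa [add_sub_cancel_left] at this

end lin

variable {p : ℕ} [Fact p.Prime] {G : Type} [Group G] [TopologicalSpace G]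

/-- the coboundaries on `U` -/
def BS (p : ℕ) [Fact p.Prime] {G : Type} [Group G] [TopologicalSpace G] (U : Subgroup G) :
    Submodule (ZMod p) (G → G → ZMod p) where
  carrier := {e | IsB p U e}
  add_mem' := by
    rintro φ φ' ⟨a, h1, h2⟩ ⟨a', h3, h4⟩
    refine ⟨a + a', h1.add h3, fun x hx y hy => ?_⟩
    simp only [Pi.add_apply, h2 x hx y hy, h4 x hx y hy]
    abel
  zero_mem' := ⟨0, IsLocallyConstant.const 0, fun x _ y _ => by simp⟩
  smul_mem' := by
    rintro c φ ⟨a, h1, h2⟩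
    refine ⟨c • a, h1.comp (fun z => c * z), fun x hx y hy => ?_⟩
    simp only [Pi.smul_apply, h2 x hx y hy, smul_eq_mul]
    ring

/-- the class of a cochain -/
def qc (U : Subgroup G) : (G → G → ZMod p) →ₗ[ZMod p] (G → G → ZMod p) ⧸ BS p U := (BS p U).mkQ

lemma qc_zero {U : Subgroup G} {e : G → G → ZMod p} : qc U e = 0 ↔ IsB p U e := by
  unfold qc
  rw [Submodule.mkQ_apply, Submodule.Quotient.mk_eq_zero]
  exact Iff.rfl

lemma qc_eq {U : Subgroup G} {e e' : G → G → ZMod p} : qc U e = qc U e' ↔ IsB p U (e - e') := by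
  rw [← sub_eq_zero, ← map_sub, qc_zero]

lemma cup_add (ψ b b' : G → ZMod p) : cup p ψ (b + b') = cup p ψ b + cup p ψ b' := by
  funext x y
  exact mul_add _ _ _

lemma add_cup (ψ ψ' b : G → ZMod p) : cup p (ψ + ψ') b = cup p ψ b + cup p ψ' b := by
  funext x y
  exact add_mul _ _ _

lemma cup_smul (ψ b : G → ZMod p) (a : ZMod p) : cup p ψ (a • b) = a • cup p ψ b := by
  funext x y
  show ψ x * (a * b y) = a * (ψ x * b y)
  ring

lemma smul_cup (ψ b : G → ZMod p) (a : ZMod p) : cup p (a • ψ) b = a • cup p ψ b := by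
  funext x y
  show (a * ψ x) * b y = a * (ψ x * b y)
  ring

lemma zero_cup (b : G → ZMod p) : cup p (0 : G → ZMod p) b = 0 := by
  funext x y
  exact zero_mul _

lemma cup_zero (b : G → ZMod p) : cup p b (0 : G → ZMod p) = 0 := by
  funext x y
  exact mul_zero _

lemma mem_Ann {U : Subgroup G} {χ b : G → ZMod p} : b ∈ Ann p U χ ↔ b ∈ HP p U ∧ qc U (cup p χ b) = 0 := by
  rw [qc_zero]
  exact Iff.rfl

lemma Ann_le {U : Subgroup G} {χ : G → ZMod p} : Ann p U χ ≤ HP p U := fun _ h => h.1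

lemma Ann_smul {U : Subgroup G} {χ : G → ZMod p} {a : ZMod p} (ha : a ≠ 0) : Ann p U (a • χ) = Ann p U χ := by
  ext b
  rw [mem_Ann, mem_Ann, smul_cup, map_smul, smul_eq_zero_iff_right ha]

lemma cup_sym {U : Subgroup G} {ψ b : G → ZMod p} (hψ : ψ ∈ HP p U) (hb : b ∈ HP p U) :
    qc U (cup p b ψ) = -qc U (cup p ψ b) := by
  rw [← map_neg, qc_eq]
  refine ⟨fun x => -(ψ x * b x), ?_, fun x hx y hy => ?_⟩
  · exact (hψ.1.mul hb.1).neg
  · show b x * ψ y - -(ψ x * b y) = -(ψ x * b x) + -(ψ y * b y) - -(ψ (x * y) * b (x * y))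
    rw [hp_mul hψ hx hy, hp_mul hb hx hy]
    ring

variable [IsTopologicalGroup G] [CompactSpace G] {P U : Subgroup G}

section dem

variable (hp2 : p ≠ 2) (hCNT : S_CNT) (hD : Dem p P) (hU : IsOpen (U : Set G)) (hUP : U ≤ P)

include hp2 hCNT hD hU hUP

lemma finrank_Ann {χ : G → ZMod p} (hχ : χ ∈ HP p U) (h0 : χ ≠ 0) :
    Module.finrank (ZMod p) (Ann p U χ) + 1 = Module.finrank (ZMod p) (HP p U) := by
  obtain ⟨σ, hσ⟩ := Function.ne_iff.1 h0
  have hσ0 : χ σ ≠ 0 := hσ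
  have hσU : σ ∈ U := by
    by_contra h
    exact hσ0 (hp_out hχ h)
  have ha : (χ σ)⁻¹ ≠ 0 := inv_ne_zero hσ0
  set χ' : G → ZMod p := (χ σ)⁻¹ • χ with hχ'
  have hm : χ' ∈ HP p U := (HP p U).smul_mem _ hχ
  have h1 : χ' σ = 1 := by
    show (χ σ)⁻¹ * χ σ = 1
    exact inv_mul_cancel₀ hσ0
  obtain ⟨f1, f2⟩ := hD.cnt U hU hUP
  have hQo := ker_isOpen hU hm (kerS_isKer hm)
  have hQP := (kerS_le hm).trans hUP
  obtain ⟨g1, g2⟩ := hD.cnt _ hQo hQP
  have hidx : (kerS hm).index = p * U.index := by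
    rw [← Subgroup.relIndex_mul_index (kerS_le hm), kerS_relIndex hm hσU h1]
  have hfin : Finite (G ⧸ U) := Subgroup.quotient_finite_of_isOpen U hU
  have hU0 : U.index ≠ 0 := Subgroup.index_ne_zero_of_finite
  have := hCNT p hp2 G U (kerS hm) hU χ' hm (kerS_isKer hm) σ hσU h1 U.index (Nat.one_le_iff_ne_zero.2 hU0)
    f1 f2 g1 (by rw [g2, hidx]) (hD.nr U hU hUP)
  rw [← Ann_smul ha, this, f2]

lemma nontriv {ψ : G → ZMod p} (hψ : ψ ∈ HP p U) (hne : ψ ≠ 0) : ∃ b ∈ HP p U, qc U (cup p ψ b) ≠ 0 := by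
  by_contra hcon
  push Not at hcon
  have h1 : Ann p U ψ = HP p U := le_antisymm Ann_le fun y hy => mem_Ann.2 ⟨hy, hcon y hy⟩
  have h3 := finrank_Ann hp2 hCNT hD hU hUP hψ hne
  rw [h1] at h3
  omega

omit hp2 hCNT hD hU hUP [IsTopologicalGroup G] [CompactSpace G] in
lemma ne_zero_of_cup {ψ b : G → ZMod p} (h : qc U (cup p ψ b) ≠ 0) : ψ ≠ 0 := by
  rintro rfl
  rw [zero_cup, map_zero] at h
  exact h rfl

/-- two characters, one outside the annihilator -/
lemma coh_right {ψ b b' : G → ZMod p} (hψ : ψ ∈ HP p U) (hb : b ∈ HP p U) (hb' : b' ∈ HP p U)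
    (h : qc U (cup p ψ b) ≠ 0) : ∃ c : ZMod p, qc U (cup p ψ b') = c • qc U (cup p ψ b) := by
  obtain ⟨c, hc⟩ := codim_one (hD.cnt U hU hUP).1 (Ann_le (χ := ψ))
    (finrank_Ann hp2 hCNT hD hU hUP hψ (ne_zero_of_cup h)) (a := b) (b := b') hb
    (fun h' => h (mem_Ann.1 h').2) hb'
  refine ⟨c, ?_⟩
  have h1 := (mem_Ann.1 hc).2
  rw [sub_eq_add_neg, ← neg_smul, cup_add, cup_smul, map_add, map_smul, neg_smul] at h1
  exact eq_of_sub_eq_zero (by rw [sub_eq_add_neg]; exact h1)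

/-- the nontrivial cup products are proportional -/
theorem coh {ψ b ψ' b' : G → ZMod p} (hψ : ψ ∈ HP p U) (hb : b ∈ HP p U) (hψ' : ψ' ∈ HP p U)
    (hb' : b' ∈ HP p U) (h : qc U (cup p ψ b) ≠ 0) :
    ∃ c : ZMod p, qc U (cup p ψ' b') = c • qc U (cup p ψ b) := by
  by_cases h' : qc U (cup p ψ' b') = 0
  · exact ⟨0, by rw [h', zero_smul]⟩
  obtain ⟨y, hy, hy1, hy2⟩ := exists_not_mem (H := HP p U) (P := Ann p U ψ) (Q := Ann p U ψ')
    ⟨b, hb, fun h1 => h (mem_Ann.1 h1).2⟩ ⟨b', hb', fun h1 => h' (mem_Ann.1 h1).2⟩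
  have k1 : qc U (cup p ψ y) ≠ 0 := fun h3 => hy1 (mem_Ann.2 ⟨hy, h3⟩)
  have k1' : qc U (cup p ψ' y) ≠ 0 := fun h3 => hy2 (mem_Ann.2 ⟨hy, h3⟩)
  have e1 := cup_sym hψ hy
  have e2 := cup_sym hψ' hy
  have k2 : qc U (cup p y ψ) ≠ 0 := by rw [e1]; exact neg_ne_zero.2 k1
  obtain ⟨a1, ha1⟩ := coh_right hp2 hCNT hD hU hUP hψ' hy hb' k1'
  obtain ⟨a2, ha2⟩ := coh_right hp2 hCNT hD hU hUP hy hψ hψ' k2
  obtain ⟨a3, ha3⟩ := coh_right hp2 hCNT hD hU hUP hψ hb hy h
  rw [e1, e2, smul_neg, neg_inj] at ha2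
  exact ⟨a1 * (a2 * a3), by rw [ha1, ha2, ha3, smul_smul, smul_smul, mul_assoc]⟩

/-- the annihilators of independent characters are different -/
theorem exists_diff {χ ψ : G → ZMod p} (hχ : χ ∈ HP p U) (hψ : ψ ∈ HP p U) (hne : χ ≠ 0)
    (hd : ∀ a : ZMod p, ψ ≠ a • χ) : ∃ y ∈ HP p U, qc U (cup p χ y) = 0 ∧ qc U (cup p ψ y) ≠ 0 := by
  by_contra hcon
  push Not at hcon
  have hψ0 : ψ ≠ 0 := by
    intro h
    exact hd 0 (by rw [h, zero_smul])
  have hle : Ann p U χ ≤ Ann p U ψ := fun y hy => mem_Ann.2 ⟨hy.1, hcon y hy.1 (mem_Ann.1 hy).2⟩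
  have d1 := finrank_Ann hp2 hCNT hD hU hUP hχ hne
  have d2 := finrank_Ann hp2 hCNT hD hU hUP hψ hψ0
  haveI := (hD.cnt U hU hUP).1
  haveI : Module.Finite (ZMod p) (Ann p U ψ) := Submodule.finiteDimensional_of_le (Ann_le (χ := ψ))
  have heq : Ann p U χ = Ann p U ψ := Submodule.eq_of_le_of_finrank_eq hle (by omega)
  obtain ⟨b₀, hb₀, hb⟩ := nontriv hp2 hCNT hD hU hUP hψ hψ0
  obtain ⟨a, ha⟩ := coh hp2 hCNT hD hU hUP hψ hb₀ hχ hb₀ hb
  -- the combination
  set θ : G → ZMod p := χ + (-a) • ψ with hθ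
  have hθm : θ ∈ HP p U := (HP p U).add_mem hχ ((HP p U).smul_mem _ hψ)
  have hθ0 : θ ≠ 0 := by
    intro h
    have h1 : χ = a • ψ := by
      rw [hθ, neg_smul] at h
      exact eq_of_sub_eq_zero (by rw [sub_eq_add_neg]; exact h)
    have ha0 : a ≠ 0 := by
      rintro rfl
      rw [zero_smul] at h1
      exact hne h1
    apply hd a⁻¹
    rw [h1, smul_smul, inv_mul_cancel₀ ha0, one_smul]
  have hθc : ∀ y, qc U (cup p θ y) = qc U (cup p χ y) - a • qc U (cup p ψ y) := by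
    intro y
    rw [hθ, add_cup, smul_cup, map_add, map_smul, neg_smul, sub_eq_add_neg]
  obtain ⟨y, hy, hy2⟩ := nontriv hp2 hCNT hD hU hUP hθm hθ0
  apply hy2
  obtain ⟨c, hc⟩ := codim_one (hD.cnt U hU hUP).1 (Ann_le (χ := ψ)) d2 (a := b₀) (b := y) hb₀
    (fun h' => hb (mem_Ann.1 h').2) hy
  have h1 := (mem_Ann.1 hc).2
  rw [← heq] at hc
  have h2 := (mem_Ann.1 hc).2
  have e1 : y = c • b₀ + (y - c • b₀) := by abel
  have e2 : ∀ φ : G → ZMod p, qc U (cup p φ y) = c • qc U (cup p φ b₀) + qc U (cup p φ (y - c • b₀)) := by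
    intro φ
    conv_lhs => rw [e1]
    rw [cup_add, cup_smul, map_add, map_smul]
  rw [hθc, e2 χ, e2 ψ, h1, h2, ha, add_zero, add_zero, smul_comm, sub_self]

end dem

open Classical in
/-- every cocycle is in the line -/
theorem main (hp2 : p ≠ 2) (hCNT : S_CNT) (hKRS : S_KRS) (hTRF : S_TRF) (hSHO : S_SHO) (hD : Dem p P) (n : ℕ) :
    ∀ (U W : Subgroup G), IsOpen (U : Set G) → U ≤ P → IsOpen (W : Set G) → W ≤ U → (W.subgroupOf U).Normal →
      W.relIndex U = n → ∀ e, IsZ p U e → IsB p W e → ∃ ψ ∈ HP p U, ∃ b ∈ HP p U, qc U e = qc U (cup p ψ b) := by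
  have hp : p.Prime := Fact.out
  induction n using Nat.strong_induction_on with
  | _ n ih =>
  intro U W hU hUP hW hWU hWn hidx e he heW
  by_cases hone : n = 1
  · rw [hone, Subgroup.relIndex_eq_one] at hidx
    have hWU' : W = U := le_antisymm hWU hidx
    subst hWU'
    exact ⟨0, (HP p W).zero_mem, 0, (HP p W).zero_mem, by rw [zero_cup, map_zero, qc_zero]; exact heW⟩
  · obtain ⟨k, hk⟩ := hD.pow W hW (hWU.trans hUP)
    have hdv : W.relIndex U ∣ p ^ k := by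
      rw [← hk, ← Subgroup.relIndex_mul_relIndex W U P hWU hUP]
      exact Dvd.intro _ rfl
    obtain ⟨j, -, hj⟩ := (Nat.dvd_prime_pow hp).1 hdv
    obtain ⟨i, rfl⟩ : ∃ i, j = i + 1 := by
      cases j with
      | zero => rw [pow_zero, hidx] at hj; exact absurd hj hone
      | succ i => exact ⟨i, rfl⟩
    obtain ⟨χ, hχ, ⟨σ, hσU, hσ⟩, hχW⟩ := exists_chi hU hW hWU hWn hj
    have hQk := kerS_isKer hχ
    have hQo := ker_isOpen hU hχ hQk
    have hQU := kerS_le hχ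
    set Q := kerS hχ with hQ
    have hWQ : W ≤ Q := fun w hw => ⟨hWU hw, hχW w hw⟩
    have hrel : W.relIndex Q * p = n := by
      rw [← hidx, ← Subgroup.relIndex_mul_relIndex W Q U hWQ hQU, kerS_relIndex hχ hσU hσ]
    have hn0 : n ≠ 0 := by
      rw [← hidx, hj]
      exact pow_ne_zero _ hp.ne_zero
    have hlt : W.relIndex Q < n := by
      have h1 : W.relIndex Q ≠ 0 := by
        intro h
        rw [h, zero_mul] at hrel
        exact hn0 hrel.symm
      have := hp.one_lt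
      nlinarith [Nat.pos_of_ne_zero h1]
    have hWnQ : (W.subgroupOf Q).Normal := by
      constructor
      intro w hw g
      have := hWn.conj_mem ⟨(w : G), hQU w.2⟩ hw ⟨(g : G), hQU g.2⟩
      exact this
    have heQ : IsZ p Q e := ⟨he.1, fun x hx y hy z hz => he.2 x (hQU hx) y (hQU hy) z (hQU hz)⟩
    obtain ⟨ψ₁, hψ₁, b₁, hb₁, hih⟩ := ih _ hlt Q W hQo (hQU.trans hUP) hW hWQ hWnQ rfl e heQ heW
    by_cases hcase : IsB p Q e
    · obtain ⟨b, hb, hb2⟩ := hKRS p hp2 G U Q hU χ hχ hQk ⟨σ, hσU, hσ⟩ (hD.nr U hU hUP) e he hcase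
      exact ⟨χ, hχ, b, hb, qc_eq.2 hb2⟩
    · exfalso
      have hχ0 : χ ≠ 0 := by
        intro h
        rw [h] at hσ
        exact zero_ne_one hσ
      haveI := (hD.cnt U hU hUP).1
      have hfr := (hD.cnt U hU hUP).2
      obtain ⟨ψ, hψ, hψs⟩ : ∃ ψ ∈ HP p U, ∀ a : ZMod p, ψ ≠ a • χ := by
        by_contra hcon
        push Not at hcon
        have h5 : HP p U ≤ Submodule.span (ZMod p) {χ} := by
          intro ψ hψ
          obtain ⟨a, ha⟩ := hcon ψ hψ
          exact Submodule.mem_span_singleton.2 ⟨a, ha.symm⟩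
        have h6 := Submodule.finrank_mono h5
        rw [finrank_span_singleton hχ0, hfr] at h6
        omega
      obtain ⟨y, hy, hy1, hy2⟩ := exists_diff hp2 hCNT hD hU hUP hχ hψ hχ0 hψs
      rw [qc_zero] at hy1
      obtain ⟨x, hx, hxy⟩ := hD.nr U hU hUP χ hχ y hy ⟨σ, hσU, hσ⟩ hy1
      obtain ⟨b', hb', hxb⟩ := ((hSHO p G U Q hU χ hχ hQk σ hσU hσ).2.2 x hx).1
      -- the restriction of `ψ`
      set ψQ : G → ZMod p := fun g => if g ∈ Q then ψ g else 0 with hψQ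
      have hψQm : ψQ ∈ HP p Q := hp_res hQo hQU hψ
      have hψQv : ∀ g ∈ Q, ψQ g = ψ g := fun g hg => if_pos hg
      -- the transfer
      have key : ∀ (e' : G → G → ZMod p), IsZ p U e' → ∀ a : ZMod p, qc Q e' = a • qc Q (cup p ψQ b') →
          a • qc U (cup p ψ y) = 0 := by
        intro e' he' a hq
        have h1 : IsX p U χ (fun g t => a * x g t) := by
          refine ⟨hx.1.comp (fun f t => a * f t), fun g hg h hh t => ?_⟩
          show a * x (g * h) t = a * x g t + a * x h (t + χ g)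
          rw [hx.2 g hg h hh t]; ring
        rw [← map_smul, qc_eq] at hq
        obtain ⟨f, hf, hf2⟩ := hq
        have h2 := hTRF p G U Q hU χ hχ hQk ⟨σ, hσU, hσ⟩ e' he' ψ hψ _ h1 ⟨f, hf, fun g hg h hh => by
          rw [← hf2 g hg h hh]
          show e' g h - ψ g * (a * x h 0) = e' g h - a * (ψQ g * b' h)
          rw [hψQv g hg, hxb h hh]; ring⟩
        obtain ⟨f3, hf3, hf4⟩ := h2
        rw [← map_smul, qc_zero]
        refine ⟨f3, hf3, fun g hg h hh => ?_⟩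
        rw [← hf4 g hg h hh]
        show a * (ψ g * y h) = ψ g * ∑ t, a * x h t
        rw [← Finset.mul_sum, hxy h hh]; ring
      by_cases hc2 : qc Q (cup p ψQ b') = 0
      · have h3 := key 0 ⟨IsLocallyConstant.const 0, fun _ _ _ _ _ _ => by simp⟩ 1 (by rw [map_zero, hc2, smul_zero])
        rw [one_smul] at h3
        exact hy2 h3
      · obtain ⟨a, ha⟩ := coh hp2 hCNT hD hQo (hQU.trans hUP) hψQm hb' hψ₁ hb₁ hc2
        rw [← hih] at ha
        have h3 := key e he a ha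
        have ha0 : a ≠ 0 := by
          rintro rfl
          rw [zero_smul, qc_zero] at ha
          exact hcase ha
        exact hy2 ((smul_eq_zero_iff_right ha0).1 h3)

theorem s_MAIN (hCNT : S_CNT) (hKRS : S_KRS) (hTRF : S_TRF) (hSHO : S_SHO) : S_MAIN := by
  intro p _ hp2 G _ _ _ _ P hP hD
  have key : ∀ e, IsZ p P e → ∃ ψ ∈ HP p P, ∃ b ∈ HP p P, qc P e = qc P (cup p ψ b) := by
    intro e he
    have hn := inv2_normal e
    refine main hp2 hCNT hKRS hTRF hSHO hD _ P (inv2 e ⊓ P) hP le_rfl ?_ inf_le_right ?_ rfl e he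
      (inv2_B e inf_le_left)
    · exact (inv2_open he.1).inter hP
    · constructor
      intro w hw g
      exact ⟨hn.conj_mem _ hw.1 _, P.mul_mem (P.mul_mem g.2 w.2) (P.inv_mem g.2)⟩
  refine ⟨fun e₁ e₂ h1 h2 hn => ?_, fun ψ hψ hne => ?_⟩
  · obtain ⟨ψ₁, a1, b₁, a2, a3⟩ := key e₁ h1
    obtain ⟨ψ₂, d1, b₂, d2, d3⟩ := key e₂ h2
    have h3 : qc P (cup p ψ₁ b₁) ≠ 0 := by
      rw [← a3]
      intro h
      exact hn (qc_zero.1 h)
    obtain ⟨c, hc⟩ := coh hp2 hCNT hD hP le_rfl a1 a2 d1 d2 h3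
    rw [← a3, ← d3, ← map_smul, qc_eq] at hc
    exact ⟨c, hc⟩
  · obtain ⟨b, hb, hb2⟩ := nontriv hp2 hCNT hD hP le_rfl hψ hne
    exact ⟨b, hb, fun h => hb2 (qc_zero.2 h)⟩

end Pool.Agent.L7h23.SG
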