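import Pool.Agent.L7h23.SG.Base

/-!
Project SG (helper48): kernels of homomorphisms, maximal subgroups, invariance of cochains.
-/

set_option autoImplicit false
set_option linter.unusedSectionVars false

namespace Pool.Agent.L7h23.SG

open Pool.Agent.L7h48.SG

variable {p : ℕ} [Fact p.Prime] {G : Type} [Group G] [TopologicalSpace G]

/-- the kernel of a homomorphism -/
def kerS {U : Subgroup G} {χ : G → ZMod p} (h : χ ∈ HP p U) : Subgroup G where
  carrier := {g | g ∈ U ∧ χ g = 0}
  one_mem' := ⟨U.one_mem, hp_one h⟩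
  mul_mem' := by
    intro a b ha hb
    exact ⟨U.mul_mem ha.1 hb.1, by rw [hp_mul h ha.1 hb.1, ha.2, hb.2, add_zero]⟩
  inv_mem' := by
    intro a ha
    exact ⟨U.inv_mem ha.1, by rw [hp_inv h ha.1, ha.2, neg_zero]⟩

lemma kerS_isKer {U : Subgroup G} {χ : G → ZMod p} (h : χ ∈ HP p U) : IsKer p U (kerS h) χ :=
  fun _ => Iff.rfl

lemma kerS_le {U : Subgroup G} {χ : G → ZMod p} (h : χ ∈ HP p U) : kerS h ≤ U := fun _ hx => hx.1

/-- the index of the kernel -/
lemma kerS_relIndex {U : Subgroup G} {χ : G → ZMod p} (h : χ ∈ HP p U) {σ : G} (hσ : σ ∈ U) (h1 : χ σ = 1) :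
    (kerS h).relIndex U = p := by
  let f : U →* Multiplicative (ZMod p) :=
    { toFun := fun u => Multiplicative.ofAdd (χ u)
      map_one' := by
        show Multiplicative.ofAdd (χ 1) = 1
        rw [hp_one h]; rfl
      map_mul' := fun a b => by
        show Multiplicative.ofAdd (χ (a * b)) = _
        rw [hp_mul h a.2 b.2]; rfl }
  have hk : (kerS h).subgroupOf U = f.ker := by
    ext u
    rw [Subgroup.mem_subgroupOf, MonoidHom.mem_ker]
    constructor
    · intro hu
      show Multiplicative.ofAdd (χ u) = 1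
      rw [hu.2]; rfl
    · intro hu
      exact ⟨u.2, hu⟩
  have hr : f.range = ⊤ := by
    rw [MonoidHom.range_eq_top]
    intro y
    refine ⟨⟨σ ^ (Multiplicative.toAdd y).val, U.pow_mem hσ _⟩, ?_⟩
    show Multiplicative.ofAdd (χ (σ ^ (Multiplicative.toAdd y).val)) = y
    rw [hp_pow h hσ, h1, mul_one, ZMod.natCast_zmod_val]
    rfl
  show ((kerS h).subgroupOf U).index = p
  rw [hk, Subgroup.index_ker, hr, Nat.card_congr Subgroup.topEquiv.toEquiv,
    Nat.card_congr Multiplicative.toAdd, Nat.card_eq_fintype_card, ZMod.card]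

/-- a homomorphism which is trivial on a normal subgroup -/
lemma exists_chi [IsTopologicalGroup G] {U W : Subgroup G} (hU : IsOpen (U : Set G)) (hW : IsOpen (W : Set G)) (hWU : W ≤ U)
    (hn : (W.subgroupOf U).Normal) {j : ℕ} (hj : W.relIndex U = p ^ (j + 1)) :
    ∃ χ ∈ HP p U, (∃ σ ∈ U, χ σ = 1) ∧ ∀ w ∈ W, χ w = 0 := by
  classical
  have hp : p.Prime := Fact.out
  set N := W.subgroupOf U with hN
  have hcard : Nat.card (U ⧸ N) = p ^ (j + 1) := hj
  have hfin : Finite (U ⧸ N) := Nat.finite_of_card_ne_zero (by rw [hcard]; exact pow_ne_zero _ hp.ne_zero)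
  obtain ⟨K, hK⟩ := Sylow.exists_subgroup_card_pow_prime (G := U ⧸ N) p (n := j)
    (by rw [hcard]; exact pow_dvd_pow p (Nat.le_succ j))
  have hKi : K.index = p := by
    have h1 := K.card_mul_index
    rw [hK, hcard, pow_succ] at h1
    exact Nat.eq_of_mul_eq_mul_left (pow_pos hp.pos j) h1
  have hKn : K.Normal := by
    apply Subgroup.normal_of_index_eq_minFac_card
    rw [hKi, hcard, hp.pow_minFac (Nat.succ_ne_zero j)]
  have hc2 : Nat.card ((U ⧸ N) ⧸ K) = p := hKi
  have e : (U ⧸ N) ⧸ K ≃* Multiplicative (ZMod p) :=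
    mulEquivOfPrimeCardEq (p := p) hc2 (by rw [Nat.card_congr Multiplicative.toAdd, Nat.card_eq_fintype_card, ZMod.card])
  let f : U →* Multiplicative (ZMod p) :=
    (e.toMonoidHom.comp (QuotientGroup.mk' K)).comp (QuotientGroup.mk' N)
  have hfW : ∀ w : U, (w : G) ∈ W → f w = 1 := by
    intro w hw
    have h1 : QuotientGroup.mk' N w = 1 := (QuotientGroup.eq_one_iff w).2 hw
    show e (QuotientGroup.mk' K (QuotientGroup.mk' N w)) = 1
    rw [h1, map_one, map_one]
  have hfs : Function.Surjective f := by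
    intro y
    obtain ⟨a, ha⟩ := e.surjective y
    obtain ⟨b, hb⟩ := QuotientGroup.mk'_surjective K a
    obtain ⟨c, hc⟩ := QuotientGroup.mk'_surjective N b
    refine ⟨c, ?_⟩
    show e (QuotientGroup.mk' K (QuotientGroup.mk' N c)) = y
    rw [hc, hb, ha]
  let χ : G → ZMod p := fun g => if h : g ∈ U then Multiplicative.toAdd (f ⟨g, h⟩) else 0
  have hχ : ∀ (g : G) (h : g ∈ U), χ g = Multiplicative.toAdd (f ⟨g, h⟩) := fun g h => dif_pos h
  refine ⟨χ, ⟨?_, ?_, fun x hx => dif_neg hx⟩, ?_, ?_⟩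
  · rw [IsLocallyConstant.iff_exists_open]
    intro x
    refine ⟨(fun y => x⁻¹ * y) ⁻¹' (W : Set G), hW.preimage (continuous_const.mul continuous_id), ?_, ?_⟩
    · show x⁻¹ * x ∈ W
      rw [inv_mul_cancel]; exact W.one_mem
    · intro y hy
      have hy' : x⁻¹ * y ∈ W := hy
      by_cases hx : x ∈ U
      · have hyU : y ∈ U := by
          have := U.mul_mem hx (hWU hy')
          rwa [mul_inv_cancel_left] at this
        rw [hχ x hx, hχ y hyU]
        have e1 : (⟨y, hyU⟩ : U) = ⟨x, hx⟩ * ⟨x⁻¹ * y, hWU hy'⟩ := by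
          apply Subtype.ext
          show y = x * (x⁻¹ * y)
          rw [mul_inv_cancel_left]
        rw [e1, map_mul, hfW ⟨x⁻¹ * y, hWU hy'⟩ hy', mul_one]
      · have hyU : y ∉ U := by
          intro h
          apply hx
          have := U.mul_mem h (U.inv_mem (hWU hy'))
          have e2 : y * (x⁻¹ * y)⁻¹ = x := by group
          rwa [e2] at this
        show χ y = χ x
        rw [show χ x = 0 from dif_neg hx, show χ y = 0 from dif_neg hyU]
  · intro x hx y hy
    rw [hχ x hx, hχ y hy, hχ (x * y) (U.mul_mem hx hy)]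
    have e1 : (⟨x * y, U.mul_mem hx hy⟩ : U) = ⟨x, hx⟩ * ⟨y, hy⟩ := rfl
    rw [e1, map_mul]
    rfl
  · obtain ⟨s, hs⟩ := hfs (Multiplicative.ofAdd 1)
    refine ⟨s, s.2, ?_⟩
    rw [hχ s s.2]
    show Multiplicative.toAdd (f s) = 1
    rw [hs]; rfl
  · intro w hw
    rw [hχ w (hWU hw), hfW ⟨w, hWU hw⟩ hw]
    rfl

section inv

variable [IsTopologicalGroup G] [CompactSpace G]

/-- the elements which can be left out in the arguments of a function of two variables -/
def inv2 (e : G → G → ZMod p) : Subgroup G where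
  carrier := {g | ∀ x y z, e (x * g * y) z = e (x * y) z ∧ e z (x * g * y) = e z (x * y)}
  one_mem' := by
    intro x y z
    rw [mul_one]
    exact ⟨rfl, rfl⟩
  mul_mem' := by
    intro a b ha hb x y z
    have e1 : x * (a * b) * y = x * a * (b * y) := by group
    have e2 : x * (b * y) = x * b * y := by group
    rw [e1, (ha x (b * y) z).1, (ha x (b * y) z).2, e2]
    exact hb x y z
  inv_mem' := by
    intro a ha x y z
    have e1 : x * y = x * a⁻¹ * a * y := by group
    rw [e1, (ha (x * a⁻¹) y z).1, (ha (x * a⁻¹) y z).2]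
    exact ⟨rfl, rfl⟩

lemma inv2_normal (e : G → G → ZMod p) : (inv2 e).Normal := by
  constructor
  intro n hn g x y z
  have e1 : x * (g * n * g⁻¹) * y = (x * g) * n * (g⁻¹ * y) := by group
  have e2 : x * y = (x * g) * (g⁻¹ * y) := by group
  rw [e1, e2]
  exact hn (x * g) (g⁻¹ * y) z

open Topology in
lemma inv2_open {e : G → G → ZMod p} (he : IsLocallyConstant (fun v : G × G => e v.1 v.2)) :
    IsOpen (inv2 e : Set G) := by
  apply Subgroup.isOpen_of_mem_nhds (g := 1)
  have h1 : ∀ᶠ g in 𝓝 (1 : G), ∀ v ∈ (Set.univ : Set (G × G × G)),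
      e (v.1 * g * v.2.1) v.2.2 = e (v.1 * v.2.1) v.2.2 ∧
      e v.2.2 (v.1 * g * v.2.1) = e v.2.2 (v.1 * v.2.1) := by
    refine isCompact_univ.eventually_forall_of_forall_eventually fun v _ => ?_
    have c1 : IsLocallyConstant (fun p : G × (G × G × G) =>
        (e (p.2.1 * p.1 * p.2.2.1) p.2.2.2, e (p.2.1 * p.2.2.1) p.2.2.2,
          e p.2.2.2 (p.2.1 * p.1 * p.2.2.1), e p.2.2.2 (p.2.1 * p.2.2.1))) := by
      refine IsLocallyConstant.prodMk ?_ (IsLocallyConstant.prodMk ?_
        (IsLocallyConstant.prodMk ?_ ?_))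
      · exact he.comp_continuous (f := fun p : G × (G × G × G) =>
          (p.2.1 * p.1 * p.2.2.1, p.2.2.2)) (by fun_prop)
      · exact he.comp_continuous (f := fun p : G × (G × G × G) =>
          (p.2.1 * p.2.2.1, p.2.2.2)) (by fun_prop)
      · exact he.comp_continuous (f := fun p : G × (G × G × G) =>
          (p.2.2.2, p.2.1 * p.1 * p.2.2.1)) (by fun_prop)
      · exact he.comp_continuous (f := fun p : G × (G × G × G) =>
          (p.2.2.2, p.2.1 * p.2.2.1)) (by fun_prop)
    have c2 := (IsLocallyConstant.iff_eventually_eq _).1 c1 ((1 : G), v)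
    filter_upwards [c2] with p hp
    simp only [Prod.mk.injEq, mul_one] at hp
    exact ⟨hp.1.trans hp.2.1.symm, hp.2.2.1.trans hp.2.2.2.symm⟩
  filter_upwards [h1] with g hg x y z
  exact hg (x, y, z) (Set.mem_univ _)

lemma inv2_B (e : G → G → ZMod p) {W : Subgroup G} (hW : W ≤ inv2 e) : IsB p W e := by
  refine ⟨fun _ => e 1 1, IsLocallyConstant.const _, fun x hx y hy => ?_⟩
  have h1 := ((hW hx) 1 1 y).1
  have h2 := ((hW hy) 1 1 1).2
  simp only [one_mul, mul_one] at h1 h2
  rw [h1, h2]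
  ring

end inv

end Pool.Agent.L7h23.SG
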