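import Pool.Agent.L7h48.SG.Stm2

/-!
Project SG (helper48), parts Z1, Z2, Z3: three quadratic rings.
-/

set_option autoImplicit false

namespace Pool.Agent.L7h23.SG.Zq

open Pool.Agent.L7h48.SG
open QuadraticAlgebra (norm norm_def)

variable {a b : ℤ}

lemma nmul (z w : QR a b) : norm (z * w) = norm z * norm w := map_mul _ _ _

lemma dom (h : ∀ z : QR a b, norm z = 0 → z = 0) : IsDomain (QR a b) := by
  haveI : NoZeroDivisors (QR a b) := ⟨fun {x y} hxy => by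
    have h1 : norm x * norm y = 0 := by rw [← nmul, hxy, QuadraticAlgebra.norm_zero]
    rcases mul_eq_zero.1 h1 with h2 | h2
    · exact Or.inl (h x h2)
    · exact Or.inr (h y h2)⟩
  exact NoZeroDivisors.to_isDomain _

/-- division with remainder -/
lemma euc (h0 : ∀ z : QR a b, norm z = 0 → z = 0)
    (hE : ∀ x y : ℚ, ∃ m n : ℤ, |(x - m) ^ 2 + b * ((x - m) * (y - n)) - a * (y - n) ^ 2| < 1)
    (z w : QR a b) (hw : w ≠ 0) : ∃ q, (norm (z - q * w)).natAbs < (norm w).natAbs := by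
  have hN : norm w ≠ 0 := fun h => hw (h0 w h)
  have hNq : ((norm w : ℤ) : ℚ) ≠ 0 := Int.cast_ne_zero.2 hN
  set N : ℤ := norm w with hNd
  set A : ℤ := (z * star w).re with hA
  set B : ℤ := (z * star w).im with hB
  obtain ⟨m, n, hmn⟩ := hE ((A : ℚ) / N) ((B : ℚ) / N)
  refine ⟨⟨m, n⟩, ?_⟩
  have key : norm (z - ⟨m, n⟩ * w) * N = (A - m * N) ^ 2 + b * ((A - m * N) * (B - n * N)) - a * (B - n * N) ^ 2 := by
    rw [hA, hB, hNd]
    simp only [norm_def, QuadraticAlgebra.re_sub, QuadraticAlgebra.im_sub, QuadraticAlgebra.re_mul,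
      QuadraticAlgebra.im_mul, QuadraticAlgebra.re_star, QuadraticAlgebra.im_star]
    ring
  have key2 : ((norm (z - ⟨m, n⟩ * w) : ℤ) : ℚ) = N * (((A : ℚ) / N - m) ^ 2 +
      b * (((A : ℚ) / N - m) * ((B : ℚ) / N - n)) - a * ((B : ℚ) / N - n) ^ 2) := by
    have h1 : ((norm (z - ⟨m, n⟩ * w) : ℤ) : ℚ) * N = (A - m * N) ^ 2 + b * ((A - m * N) * (B - n * N)) -
        a * (B - n * N) ^ 2 := by exact_mod_cast key
    apply mul_right_cancel₀ hNq
    rw [h1]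
    field_simp
  have h3 : |((norm (z - ⟨m, n⟩ * w) : ℤ) : ℚ)| < |(N : ℚ)| := by
    rw [key2, abs_mul]
    exact mul_lt_of_lt_one_right (abs_pos.2 hNq) hmn
  have h4 : |norm (z - ⟨m, n⟩ * w)| < |N| := by exact_mod_cast h3
  rw [Int.abs_eq_natAbs, Int.abs_eq_natAbs] at h4
  exact_mod_cast h4

lemma pid (hE : ∀ z w : QR a b, w ≠ 0 → ∃ q, (norm (z - q * w)).natAbs < (norm w).natAbs) :
    IsPrincipalIdealRing (QR a b) := by
  classical
  refine ⟨fun I => ?_⟩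
  by_cases hI : I = ⊥
  · rw [hI]; exact bot_isPrincipal
  · have hex : ∃ n : ℕ, ∃ w ∈ I, w ≠ 0 ∧ (norm w).natAbs = n := by
      obtain ⟨w, hw, h0⟩ := Submodule.exists_mem_ne_zero_of_ne_bot hI
      exact ⟨_, w, hw, h0, rfl⟩
    obtain ⟨w, hw, hw0, hn⟩ := Nat.find_spec hex
    refine ⟨w, le_antisymm (fun z hz => ?_) ?_⟩
    · obtain ⟨q, hq⟩ := hE z w hw0
      have h1 : z - q * w ∈ I := I.sub_mem hz (I.mul_mem_left q hw)
      by_cases h2 : z - q * w = 0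
      · exact Submodule.mem_span_singleton.2 ⟨q, (sub_eq_zero.1 h2).symm⟩
      · exact absurd ⟨_, h1, h2, rfl⟩ (Nat.find_min hex (by rw [← hn]; exact hq))
    · rw [Submodule.span_singleton_le_iff_mem]; exact hw

lemma unit_iff (z : QR a b) : IsUnit z ↔ (norm z).natAbs = 1 := by
  rw [QuadraticAlgebra.isUnit_iff_norm_isUnit, Int.isUnit_iff_natAbs_eq]

lemma assoc_of_dvd {π s : QR a b} (hπ : Prime π) (h : π ∣ s) (hs : (norm s).natAbs = 3) :
    ∃ u, IsUnit u ∧ π = u * s := by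
  obtain ⟨c, rfl⟩ := h
  rw [nmul, Int.natAbs_mul] at hs
  have h1 : (norm π).natAbs ∣ 3 := Dvd.intro _ hs
  rcases (Nat.dvd_prime Nat.prime_three).1 h1 with h2 | h2
  · exact absurd ((unit_iff π).2 h2) hπ.not_unit
  · rw [h2] at hs
    have h3 : IsUnit c := (unit_iff c).2 (by omega)
    obtain ⟨v, rfl⟩ := h3
    refine ⟨((v⁻¹ : (QR a b)ˣ) : QR a b), (v⁻¹).isUnit, ?_⟩
    rw [mul_comm π, ← mul_assoc, Units.inv_mul, one_mul]

lemma fac (hd : IsDomain (QR a b)) (hp : IsPrincipalIdealRing (QR a b)) (Q : QR a b → Prop)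
    (hu : ∀ u, IsUnit u → Q u) (hπ : ∀ π x, Prime π → π ∣ 3 → Q x → Q (π * x)) :
    ∀ T : QR a b, T ≠ 0 → (∀ π, Prime π → π ∣ T → π ∣ 3) → Q T := by
  intro T
  induction T using UniqueFactorizationMonoid.induction_on_prime with
  | h₁ => intro h; exact absurd rfl h
  | h₂ u h => intro _ _; exact hu u h
  | h₃ x π hx0 hp ih =>
    intro _ h
    exact hπ π x hp (h π hp (Dvd.intro _ rfl)) (ih hx0 fun ρ hρ hρx => h ρ hρ (hρx.mul_left _))

/-! ### `ℤ[√-2]` -/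

lemma abs_le_half (x : ℚ) : ∃ m : ℤ, |x - m| ≤ 1 / 2 := ⟨round x, abs_sub_round x⟩

lemma h0_one (z : QR (-2) 0) (h : norm z = 0) : z = 0 := by
  rw [norm_def] at h
  have h1 : z.re ^ 2 + 2 * z.im ^ 2 = 0 := by linear_combination h
  have h2 : z.re = 0 := by nlinarith [sq_nonneg z.re, sq_nonneg z.im]
  have h3 : z.im = 0 := by nlinarith [sq_nonneg z.re, sq_nonneg z.im]
  ext
  · exact h2
  · exact h3

lemma E_one (x y : ℚ) : ∃ m n : ℤ,
    |(x - m) ^ 2 + ((0 : ℤ) : ℚ) * ((x - m) * (y - n)) - ((-2 : ℤ) : ℚ) * (y - n) ^ 2| < 1 := by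
  obtain ⟨m, hm⟩ := abs_le_half x
  obtain ⟨n, hn⟩ := abs_le_half y
  refine ⟨m, n, ?_⟩
  generalize x - m = u at *
  generalize y - n = v at *
  have h1 : u ^ 2 ≤ 1 / 4 := by
    have := sq_le_sq' (neg_le_of_abs_le hm) (le_of_abs_le hm)
    norm_num at this ⊢; exact this
  have h2 : v ^ 2 ≤ 1 / 4 := by
    have := sq_le_sq' (neg_le_of_abs_le hn) (le_of_abs_le hn)
    norm_num at this ⊢; exact this
  push_cast
  rw [abs_lt]
  constructor <;> nlinarith [sq_nonneg u, sq_nonneg v]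

theorem dom_one : IsDomain (QR (-2) 0) := dom h0_one

theorem pid_one : IsPrincipalIdealRing (QR (-2) 0) := pid (euc h0_one E_one)

lemma unit_one {u : QR (-2) 0} (hu : IsUnit u) : u = 1 ∨ u = -1 := by
  rw [unit_iff, norm_def] at hu
  have h1 : (u.re ^ 2 + 2 * u.im ^ 2).natAbs = 1 := by
    rw [← hu]; congr 1; ring
  have h2 : u.re ^ 2 + 2 * u.im ^ 2 = 1 := by
    have h3 : 0 ≤ u.re ^ 2 + 2 * u.im ^ 2 := by positivity
    omega
  have h4 : u.im = 0 := by nlinarith [sq_nonneg u.re, sq_nonneg u.im]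
  rw [h4] at h2
  have h5 : u.re ^ 2 = 1 := by linarith
  have h6 : (u.re - 1) * (u.re + 1) = 0 := by linear_combination h5
  rcases mul_eq_zero.1 h6 with h7 | h7
  · left
    ext
    · show u.re = 1
      omega
    · exact h4
  · right
    ext
    · show u.re = -1
      omega
    · show u.im = -0
      rw [h4]; rfl

lemma three_eq (a b : ℤ) : (3 : QR a b) = ⟨3, 0⟩ := rfl

theorem s_Z1' : S_Z1 := by
  refine ⟨dom_one, pid_one, fun u T hu hT hπ => ?_⟩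
  haveI := dom_one
  haveI := pid_one
  have h3 : (3 : QR (-2) 0) = ⟨1, 1⟩ * ⟨1, -1⟩ := by decide
  obtain ⟨v, i, j, hv, hT2⟩ : ∃ (v : QR (-2) 0) (i j : ℕ), IsUnit v ∧ T = v * ⟨1, 1⟩ ^ i * ⟨1, -1⟩ ^ j := by
    refine fac dom_one pid_one (fun x => ∃ (v : QR (-2) 0) (i j : ℕ), IsUnit v ∧ x = v * ⟨1, 1⟩ ^ i * ⟨1, -1⟩ ^ j)
      (fun u hu => ⟨u, 0, 0, hu, by rw [pow_zero, pow_zero, mul_one, mul_one]⟩) ?_ T hT hπ
    rintro π x hπ hd ⟨v, i, j, hv, rfl⟩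
    rw [h3] at hd
    rcases hπ.dvd_or_dvd hd with h | h
    · obtain ⟨w, hw, rfl⟩ := assoc_of_dvd hπ h (by decide)
      exact ⟨w * v, i + 1, j, hw.mul hv, by rw [pow_succ]; ring⟩
    · obtain ⟨w, hw, rfl⟩ := assoc_of_dvd hπ h (by decide)
      exact ⟨w * v, i, j + 1, hw.mul hv, by rw [pow_succ]; ring⟩
  refine ⟨u * v, i, j, unit_one (hu.mul hv), ?_⟩
  rw [hT2]
  ring

/-! ### `ℤ[ω]`, `ω² = -1 - ω` -/

lemma h0_two (z : QR (-1) (-1)) (h : norm z = 0) : z = 0 := by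
  rw [norm_def] at h
  have h1 : (2 * z.re - z.im) ^ 2 + 3 * z.im ^ 2 = 0 := by linear_combination 4 * h
  have h3 : z.im = 0 := by nlinarith [sq_nonneg (2 * z.re - z.im), sq_nonneg z.im]
  have h2 : z.re = 0 := by
    rw [h3] at h1
    nlinarith [sq_nonneg z.re]
  ext
  · exact h2
  · exact h3

lemma E_two (x y : ℚ) : ∃ m n : ℤ,
    |(x - m) ^ 2 + ((-1 : ℤ) : ℚ) * ((x - m) * (y - n)) - ((-1 : ℤ) : ℚ) * (y - n) ^ 2| < 1 := by
  obtain ⟨m, hm⟩ := abs_le_half x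
  obtain ⟨n, hn⟩ := abs_le_half y
  refine ⟨m, n, ?_⟩
  generalize x - m = u at *
  generalize y - n = v at *
  have h1 : u ^ 2 ≤ 1 / 4 := by
    have := sq_le_sq' (neg_le_of_abs_le hm) (le_of_abs_le hm)
    norm_num at this ⊢; exact this
  have h2 : v ^ 2 ≤ 1 / 4 := by
    have := sq_le_sq' (neg_le_of_abs_le hn) (le_of_abs_le hn)
    norm_num at this ⊢; exact this
  push_cast
  rw [abs_lt]
  constructor <;> nlinarith [sq_nonneg u, sq_nonneg v, sq_nonneg (u + v), sq_nonneg (u - v)]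

theorem dom_two : IsDomain (QR (-1) (-1)) := dom h0_two

theorem pid_two : IsPrincipalIdealRing (QR (-1) (-1)) := pid (euc h0_two E_two)

lemma unit_two {u : QR (-1) (-1)} (hu : IsUnit u) :
    ∃ (e : QR (-1) (-1)) (l : ℕ), (e = 1 ∨ e = -1) ∧ u = e * ⟨0, 1⟩ ^ l := by
  rw [unit_iff, norm_def] at hu
  obtain ⟨x, y⟩ := u
  have h1 : ((2 * x - y) ^ 2 + 3 * y ^ 2).natAbs = 4 := by
    have e1 : (2 * x - y) ^ 2 + 3 * y ^ 2 = 4 * (x * x + (-1) * x * y - (-1) * y * y) := by ring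
    rw [e1, Int.natAbs_mul]
    have hu' : (x * x + (-1) * x * y - (-1) * y * y).natAbs = 1 := hu
    rw [hu']; rfl
  have h2 : (2 * x - y) ^ 2 + 3 * y ^ 2 = 4 := by
    have h3 : 0 ≤ (2 * x - y) ^ 2 + 3 * y ^ 2 := by positivity
    omega
  have h3 : y ≤ 1 := by nlinarith [sq_nonneg (2 * x - y)]
  have h4 : -1 ≤ y := by nlinarith [sq_nonneg (2 * x - y)]
  have h5 : x ≤ 1 := by nlinarith [sq_nonneg y]
  have h6 : -1 ≤ x := by nlinarith [sq_nonneg y]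
  interval_cases y <;> interval_cases x <;> first
    | (exfalso; revert h2; decide)
    | exact ⟨1, 0, Or.inl rfl, by decide⟩
    | exact ⟨-1, 0, Or.inr rfl, by decide⟩
    | exact ⟨1, 1, Or.inl rfl, by decide⟩
    | exact ⟨-1, 1, Or.inr rfl, by decide⟩
    | exact ⟨1, 2, Or.inl rfl, by decide⟩
    | exact ⟨-1, 2, Or.inr rfl, by decide⟩

theorem s_Z2' : S_Z2 := by
  refine ⟨dom_two, pid_two, fun u T hu hT hπ => ?_⟩
  haveI := dom_two
  haveI := pid_two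
  have h3 : (3 : QR (-1) (-1)) = ⟨1, 2⟩ * ⟨-1, -2⟩ := by decide
  have h4 : (⟨-1, -2⟩ : QR (-1) (-1)) = (-1) * ⟨1, 2⟩ := by decide
  obtain ⟨v, k, hv, hT2⟩ : ∃ (v : QR (-1) (-1)) (k : ℕ), IsUnit v ∧ T = v * ⟨1, 2⟩ ^ k := by
    refine fac dom_two pid_two (fun x => ∃ (v : QR (-1) (-1)) (k : ℕ), IsUnit v ∧ x = v * ⟨1, 2⟩ ^ k)
      (fun u hu => ⟨u, 0, hu, by rw [pow_zero, mul_one]⟩) ?_ T hT hπ
    rintro π x hπ hd ⟨v, k, hv, rfl⟩
    rw [h3] at hd
    have key : π ∣ ⟨1, 2⟩ := by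
      rcases hπ.dvd_or_dvd hd with h | h
      · exact h
      · rw [h4] at h
        rcases hπ.dvd_or_dvd h with h5 | h5
        · exact absurd (isUnit_of_dvd_unit h5 isUnit_one.neg) hπ.not_unit
        · exact h5
    obtain ⟨w, hw, rfl⟩ := assoc_of_dvd hπ key (by decide)
    exact ⟨w * v, k + 1, hw.mul hv, by rw [pow_succ]; ring⟩
  obtain ⟨e, l, he, hl⟩ := unit_two (hu.mul hv)
  refine ⟨e, l, k, he, ?_⟩
  rw [hT2, ← mul_assoc, hl]

/-! ### `ℤ[√6]` -/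

lemma nsq6 : ¬ IsSquare (6 : ℕ) := by
  rintro ⟨r, hr⟩
  have h1 : r < 3 := by nlinarith
  interval_cases r <;> omega

lemma nsq30 : ¬ IsSquare (30 : ℕ) := by
  rintro ⟨r, hr⟩
  have h1 : r < 6 := by nlinarith
  interval_cases r <;> omega

lemma no_sq6 (v : ℚ) (h : 6 * v ^ 2 = 1) : False := by
  have h1 : IsSquare ((6 : ℕ) : ℚ) := ⟨6 * v, by push_cast; linear_combination (-6) * h⟩
  rw [Rat.isSquare_natCast_iff] at h1
  exact nsq6 h1

lemma no_sq5 (v : ℚ) (h : 6 * v ^ 2 = 5 / 4) : False := by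
  have h1 : IsSquare ((30 : ℕ) : ℚ) := ⟨12 * v, by push_cast; linear_combination (-24) * h⟩
  rw [Rat.isSquare_natCast_iff] at h1
  exact nsq30 h1

lemma h0_thr (z : QR 6 0) (h : norm z = 0) : z = 0 := by
  rw [norm_def] at h
  have h1 : z.re ^ 2 = 6 * z.im ^ 2 := by linear_combination h
  have h3 : z.im = 0 := by
    by_contra h3
    have h4 : ((z.im : ℤ) : ℚ) ≠ 0 := Int.cast_ne_zero.2 h3
    have h5 : ((z.re : ℤ) : ℚ) ^ 2 = 6 * (z.im : ℚ) ^ 2 := by exact_mod_cast h1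
    have h6 : IsSquare ((6 : ℕ) : ℚ) := ⟨(z.re : ℚ) / z.im, by
      push_cast
      field_simp
      linear_combination -h5⟩
    rw [Rat.isSquare_natCast_iff] at h6
    exact nsq6 h6
  rw [h3] at h1
  ext
  · show z.re = 0
    have : z.re ^ 2 = 0 := by linarith
    exact pow_eq_zero_iff (two_ne_zero) |>.1 this
  · exact h3

lemma E_thr (x y : ℚ) : ∃ m n : ℤ,
    |(x - m) ^ 2 + ((0 : ℤ) : ℚ) * ((x - m) * (y - n)) - ((6 : ℤ) : ℚ) * (y - n) ^ 2| < 1 := by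
  obtain ⟨m, hm⟩ := abs_le_half x
  obtain ⟨n, hn⟩ := abs_le_half y
  obtain ⟨w, hw, hw0⟩ : ∃ w : ℚ, w = 6 * (y - n) ^ 2 ∧ 0 ≤ w := ⟨_, rfl, by positivity⟩
  have hw1 : w ≤ 3 / 2 := by
    have := sq_le_sq' (neg_le_of_abs_le hn) (le_of_abs_le hn)
    rw [hw]; linarith
  have hne1 : w ≠ 1 := fun h => no_sq6 (y - n) (by rw [← hw, h])
  have hne5 : w ≠ 5 / 4 := fun h => no_sq5 (y - n) (by rw [← hw, h])
  -- it is enough to find `m`
  suffices h : ∃ k : ℤ, -1 < (x - k) ^ 2 - w ∧ (x - k) ^ 2 - w < 1 by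
    obtain ⟨k, h1, h2⟩ := h
    refine ⟨k, n, ?_⟩
    have e1 : (x - k) ^ 2 + ((0 : ℤ) : ℚ) * ((x - k) * (y - n)) - ((6 : ℤ) : ℚ) * (y - n) ^ 2 = (x - k) ^ 2 - w := by
      rw [hw]; push_cast; ring
    rw [e1, abs_lt]
    exact ⟨h1, h2⟩
  have hu := abs_le.1 hm
  by_cases h1 : w < 1
  · refine ⟨m, by nlinarith [sq_nonneg (x - m)], ?_⟩
    have := sq_le_sq' hu.1 hu.2
    linarith
  · have h2 : 1 < w := lt_of_le_of_ne (not_lt.1 h1) (Ne.symm hne1)
    rcases le_total 0 (x - m) with h3 | h3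
    · -- `1 - u` is `|x - (m + 1)|`
      by_cases h4 : w - 1 < (1 - (x - m)) ^ 2
      · refine ⟨m + 1, ?_, ?_⟩ <;> push_cast <;> nlinarith
      · push Not at h4
        refine ⟨m - 1, ?_, ?_⟩
        · push_cast; nlinarith
        · by_contra h5
          push Not at h5
          push_cast at h5
          have h6 : (1 + (x - m)) ^ 2 ≥ w + 1 := by linarith [h5, show (x - (m - 1 : ℚ)) ^ 2 = (1 + (x - m)) ^ 2 by ring]
          have h7 : x - m = 1 / 2 := by nlinarith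
          rw [h7] at h4 h6
          apply hne5
          linarith
    · by_cases h4 : w - 1 < (1 + (x - m)) ^ 2
      · refine ⟨m - 1, ?_, ?_⟩ <;> push_cast <;> nlinarith
      · push Not at h4
        refine ⟨m + 1, ?_, ?_⟩
        · push_cast; nlinarith
        · by_contra h5
          push Not at h5
          push_cast at h5
          have h6 : (1 - (x - m)) ^ 2 ≥ w + 1 := by linarith [h5, show (x - (m + 1 : ℚ)) ^ 2 = (1 - (x - m)) ^ 2 by ring]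
          have h7 : x - m = -1 / 2 := by nlinarith
          rw [h7] at h4 h6
          apply hne5
          linarith

theorem dom_thr : IsDomain (QR 6 0) := dom h0_thr

theorem pid_thr : IsPrincipalIdealRing (QR 6 0) := pid (euc h0_thr E_thr)

open Pell in
/-- the fundamental solution -/
def fs : Solution₁ 6 := Solution₁.mk 5 2 (by norm_num)

open Pell in
lemma fs_fund : IsFundamental fs := by
  refine ⟨?_, ?_, ?_⟩
  · show (1 : ℤ) < 5; norm_num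
  · show (0 : ℤ) < 2; norm_num
  · intro c hc
    show (5 : ℤ) ≤ c.x
    by_contra h
    push Not at h
    have h1 := c.prop
    have h2 : c.x = 2 ∨ c.x = 3 ∨ c.x = 4 := by omega
    rcases h2 with h2 | h2 | h2 <;> rw [h2] at h1 <;> omega

open Pell in
/-- solutions as elements of the ring -/
def toQ (s : Solution₁ 6) : QR 6 0 := ⟨s.x, s.y⟩

open Pell in
lemma toQ_mul (s t : Solution₁ 6) : toQ (s * t) = toQ s * toQ t := by
  ext
  · show (s * t).x = s.x * t.x + 6 * s.y * t.y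
    rw [Solution₁.x_mul]; ring
  · show (s * t).y = s.x * t.y + s.y * t.x + 0 * s.y * t.y
    rw [Solution₁.y_mul]; ring

open Pell in
lemma toQ_one : toQ 1 = 1 := by
  ext
  · exact Solution₁.x_one (d := 6)
  · exact Solution₁.y_one (d := 6)

open Pell in
lemma toQ_pow (s : Solution₁ 6) (n : ℕ) : toQ (s ^ n) = toQ s ^ n := by
  induction n with
  | zero => rw [pow_zero, pow_zero, toQ_one]
  | succ n ih => rw [pow_succ, pow_succ, toQ_mul, ih]

open Pell in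
lemma toQ_neg (s : Solution₁ 6) : toQ (-s) = -1 * toQ s := by
  rw [neg_one_mul]
  ext
  · show (-s).x = -s.x
    exact Solution₁.x_neg s
  · show (-s).y = -s.y
    exact Solution₁.y_neg s

open Pell in
lemma unit_thr {u : QR 6 0} (hu : IsUnit u) :
    ∃ (e : QR 6 0) (m : ℕ), (e = 1 ∨ e = -1) ∧ (u = e * ⟨5, 2⟩ ^ m ∨ u = e * ⟨5, -2⟩ ^ m) := by
  rw [unit_iff, norm_def] at hu
  have h1 : (u.re ^ 2 - 6 * u.im ^ 2).natAbs = 1 := by
    rw [← hu]; congr 1; ring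
  have h2 : u.re ^ 2 - 6 * u.im ^ 2 = 1 := by
    rcases Int.natAbs_eq (u.re ^ 2 - 6 * u.im ^ 2) with h | h
    · rw [h, h1]; rfl
    · exfalso
      rw [h1] at h
      have h3 : (u.re ^ 2) % 3 = 2 := by omega
      have h4 : u.re % 3 = 0 ∨ u.re % 3 = 1 ∨ u.re % 3 = 2 := by omega
      rcases h4 with h4 | h4 | h4 <;> rw [pow_two, Int.mul_emod, h4] at h3 <;> norm_num at h3
  have hu2 : u = toQ (Solution₁.mk u.re u.im h2) := by
    ext <;> rfl
  obtain ⟨k, hk⟩ := fs_fund.eq_zpow_or_neg_zpow (Solution₁.mk u.re u.im h2)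
  have e1 : toQ fs = ⟨5, 2⟩ := rfl
  have e2 : toQ fs⁻¹ = ⟨5, -2⟩ := by
    ext
    · show (fs⁻¹).x = 5
      rw [Solution₁.x_inv]; rfl
    · show (fs⁻¹).y = -2
      rw [Solution₁.y_inv]; rfl
  have key : ∃ m : ℕ, toQ (fs ^ k) = ⟨5, 2⟩ ^ m ∨ toQ (fs ^ k) = ⟨5, -2⟩ ^ m := by
    obtain ⟨m, rfl | rfl⟩ := k.eq_nat_or_neg
    · exact ⟨m, Or.inl (by rw [zpow_natCast, toQ_pow, e1])⟩
    · exact ⟨m, Or.inr (by rw [zpow_neg, zpow_natCast, ← inv_pow, toQ_pow, e2])⟩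
  obtain ⟨m, hm⟩ := key
  rcases hk with hk | hk
  · refine ⟨1, m, Or.inl rfl, ?_⟩
    rw [hu2, hk, one_mul, one_mul]
    exact hm
  · refine ⟨-1, m, Or.inr rfl, ?_⟩
    rw [hu2, hk, toQ_neg]
    rcases hm with hm | hm
    · left; rw [hm]
    · right; rw [hm]

theorem s_Z3' : S_Z3 := by
  refine ⟨dom_thr, pid_thr, fun u T hu hT hπ => ?_⟩
  haveI := dom_thr
  haveI := pid_thr
  have h3 : (3 : QR 6 0) = ⟨3, 1⟩ * ⟨3, -1⟩ := by decide
  have h4 : (⟨3, -1⟩ : QR 6 0) = ⟨5, -2⟩ * ⟨3, 1⟩ := by decide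
  have h5 : IsUnit (⟨5, -2⟩ : QR 6 0) := (unit_iff _).2 (by decide)
  obtain ⟨v, k, hv, hT2⟩ : ∃ (v : QR 6 0) (k : ℕ), IsUnit v ∧ T = v * ⟨3, 1⟩ ^ k := by
    refine fac dom_thr pid_thr (fun x => ∃ (v : QR 6 0) (k : ℕ), IsUnit v ∧ x = v * ⟨3, 1⟩ ^ k)
      (fun u hu => ⟨u, 0, hu, by rw [pow_zero, mul_one]⟩) ?_ T hT hπ
    rintro π x hπ hd ⟨v, k, hv, rfl⟩
    rw [h3] at hd
    have key : π ∣ ⟨3, 1⟩ := by
      rcases hπ.dvd_or_dvd hd with h | h
      · exact h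
      · rw [h4] at h
        rcases hπ.dvd_or_dvd h with h6 | h6
        · exact absurd (isUnit_of_dvd_unit h6 h5) hπ.not_unit
        · exact h6
    obtain ⟨w, hw, rfl⟩ := assoc_of_dvd hπ key (by decide)
    exact ⟨w * v, k + 1, hw.mul hv, by rw [pow_succ]; ring⟩
  obtain ⟨e, m, he, hm⟩ := unit_thr (hu.mul hv)
  refine ⟨e, m, k, he, ?_⟩
  rw [hT2, ← mul_assoc]
  rcases hm with hm | hm
  · left; rw [hm]
  · right; rw [hm]

end Pool.Agent.L7h23.SG.Zq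

namespace Pool.Agent.L7h23.SG

open Pool.Agent.L7h48.SG

theorem s_Z1 : S_Z1 := Zq.s_Z1'
theorem s_Z2 : S_Z2 := Zq.s_Z2'
theorem s_Z3 : S_Z3 := Zq.s_Z3'

end Pool.Agent.L7h23.SG
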